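import Pool.Agent.TH373.EN.Window
import Pool.Agent.H771R3.EN.ARC
import Pool.Agent.H771R3.EN.FORM
import Pool.Agent.H771R3.EN.INT
import Pool.Agent.H771R3.EN.SIZ
import Pool.Agent.H771R3.EN.PF
import Pool.Agent.H771R3.EN.EXP
import Pool.Agent.H771R3.EN.PRO
import Pool.Agent.H771R3.EN.VB
import Pool.Agent.H771R3.EN.PIG
import Pool.Agent.H771R3.EN.PAR

/-!
# Few well approximable numbers `ξ e ^ n - θ` up to `N`
-/

set_option autoImplicit false

namespace Pool.Agent.TH373.EN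

open Finset Pool.Agent.H771R3.EN

theorem log_small (δ : ℝ) (N : ℕ) (hδ : 0 < δ) (hN : 3 ≤ N)
    (h : δ * Real.log N < 512 * Real.log (Real.log N)) :
    (N : ℝ) ^ (δ ^ 2 / 1280) ≤ Real.exp 820 := by
  have hN0 : (0 : ℝ) < N := by
    have : 0 < N := by omega
    exact_mod_cast this
  have hl : 1 ≤ Real.log N := by
    have h3 : (3 : ℝ) ≤ N := by exact_mod_cast hN
    rw [Real.le_log_iff_exp_le hN0]
    have := Real.exp_one_lt_d9
    linarith
  set l := Real.log N with hld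
  have hs : 1 ≤ Real.sqrt l := Real.one_le_sqrt.2 hl
  have h1 : Real.log l ≤ 2 * Real.sqrt l := by
    have h2 : Real.log l = 2 * Real.log (Real.sqrt l) := by
      rw [Real.log_sqrt (by linarith)]
      ring
    have h3 := Real.log_le_sub_one_of_pos (show 0 < Real.sqrt l by linarith)
    rw [h2]
    linarith
  have h4 : δ * l ≤ 1024 * Real.sqrt l := by linarith
  have h5 : Real.sqrt l * Real.sqrt l = l := Real.mul_self_sqrt (by linarith)
  have h6 : δ * Real.sqrt l ≤ 1024 := by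
    have h7 : (δ * Real.sqrt l) * Real.sqrt l ≤ 1024 * Real.sqrt l := by
      rw [mul_assoc, h5]
      exact h4
    exact le_of_mul_le_mul_right h7 (by linarith)
  have h8 : δ ^ 2 * l ≤ 1048576 := by
    have h9 : δ ^ 2 * l = (δ * Real.sqrt l) ^ 2 := by
      rw [mul_pow, Real.sq_sqrt (by linarith)]
    rw [h9]
    have : 0 ≤ δ * Real.sqrt l := by positivity
    nlinarith
  rw [Real.rpow_def_of_pos hN0]
  apply Real.exp_le_exp.2
  rw [← hld]
  have : l * (δ ^ 2 / 1280) = δ ^ 2 * l / 1280 := by ring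
  rw [this]
  linarith

open Classical in
/-- the main case -/
theorem arc_big (hF : S_FORM) (hVB : S_VB) (hPIG : S_PIG) (n1 : ℕ)
    (hPAR : ∀ (n t W : ℕ) (δ : ℝ), n1 ≤ n → 0 < δ → δ ≤ 1 →
      64 * Real.log (Real.log n) ≤ δ * Real.log n → t = ⌈4 / δ⌉₊ → 1 ≤ W →
      16 * ((t : ℝ) + 1) * Real.log W ≤ δ * Real.log n →
      ∃ m : ℕ, 1 ≤ m ∧
        2 * Real.exp ((n : ℝ) + 2 * W) * (W : ℝ) ^ (t * (t + 1) * m) * ((m - 1).factorial : ℝ) ≤
          ((m * (t + 1) - 1).factorial : ℝ) ∧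
        6 * ((t : ℝ) + 1) * 2 ^ (m * (t + 1)) * ((m * (t + 1) - 1).factorial : ℝ) *
          Real.exp (-(δ * n)) < Real.exp n)
    (δ ξ θ : ℝ) (N : ℕ) (hδ : 0 < δ) (hδ1 : δ ≤ 1) (hN : 8 ≤ N) (hNn : n1 ^ 2 ≤ N) (hξ : ξ ≠ 0)
    (hl : 512 * Real.log (Real.log N) ≤ δ * Real.log N) :
    (((Icc 1 N).filter (fun n : ℕ => Bad δ ξ θ n)).card : ℝ) ≤
      81 / δ * (N : ℝ) ^ (1 - δ ^ 2 / 1280) + 10 / δ * |Real.log (|ξ|)| := by
  have hN0 : (0 : ℝ) < N := by
    have : 0 < N := by omega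
    exact_mod_cast this
  have hN8 : (8 : ℝ) ≤ N := by exact_mod_cast hN
  have hN1 : (1 : ℝ) ≤ N := by linarith
  have hl2 : 2 ≤ Real.log N := by
    rw [Real.le_log_iff_exp_le hN0]
    have h1 := Real.exp_one_lt_d9
    have h2 : Real.exp 2 = Real.exp 1 * Real.exp 1 := by
      rw [← Real.exp_add]; norm_num
    have h3 := Real.exp_pos 1
    rw [h2]
    nlinarith
  obtain ⟨t, ht⟩ : ∃ t, t = ⌈8 / δ⌉₊ := ⟨_, rfl⟩
  have h8δ : 8 ≤ 8 / δ := by
    rw [le_div_iff₀ hδ]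
    nlinarith
  have h1δ : 1 ≤ 1 / δ := by
    rw [le_div_iff₀ hδ]
    linarith
  have ht1 : 8 / δ ≤ t := by rw [ht]; exact Nat.le_ceil _
  have ht2 : (t : ℝ) < 8 / δ + 1 := by rw [ht]; exact Nat.ceil_lt_add_one (by positivity)
  have ht4 : (8 : ℝ) ≤ t := h8δ.trans ht1
  have ht5 : (t : ℝ) ≤ 9 / δ := by
    have : 9 / δ = 8 / δ + 1 / δ := by ring
    linarith
  have ht6 : (t : ℝ) + 1 ≤ 10 / δ := by
    have : 10 / δ = 9 / δ + 1 / δ := by ring
    linarith
  set kap : ℝ := δ / 2 / (16 * ((t : ℝ) + 1)) with hkap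
  have hkap0 : 0 < kap := by positivity
  have hkap1 : kap ≤ 1 := by
    rw [hkap, div_le_one (by positivity)]
    linarith
  have hkap2 : δ ^ 2 / 1280 ≤ kap / 4 := by
    have h5 : ((t : ℝ) + 1) * δ ≤ 10 := by
      rw [le_div_iff₀ hδ] at ht6
      exact ht6
    have e : kap / 4 = δ / (128 * ((t : ℝ) + 1)) := by
      rw [hkap]
      field_simp
      norm_num
    rw [e, div_le_div_iff₀ (by norm_num) (by positivity)]
    nlinarith
  set x : ℝ := (N : ℝ) ^ (kap / 2) with hx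
  have hx1 : 1 ≤ x := Real.one_le_rpow hN1 (by positivity)
  obtain ⟨W, hWd⟩ : ∃ W, W = ⌊x⌋₊ := ⟨_, rfl⟩
  have hW1 : 1 ≤ W := by rw [hWd]; exact Nat.le_floor (by exact_mod_cast hx1)
  have hWx : (W : ℝ) ≤ x := by rw [hWd]; exact Nat.floor_le (by linarith)
  have hxW : x ≤ 2 * W := by
    have h5 : x < W + 1 := by rw [hWd]; exact Nat.lt_floor_add_one x
    have h6 : (1 : ℝ) ≤ W := by exact_mod_cast hW1
    linarith
  have hW0 : (0 : ℝ) < W := by
    have h6 : (1 : ℝ) ≤ W := by exact_mod_cast hW1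
    linarith
  have hlogW : Real.log W ≤ kap / 2 * Real.log N := by
    rw [← Real.log_rpow hN0]
    exact Real.log_le_log hW0 hWx
  set L : ℝ := |Real.log (|ξ|)| with hLd
  have hL0 : 0 ≤ L := abs_nonneg _
  obtain ⟨a1, ha⟩ : ∃ a, a = ⌈Real.sqrt N⌉₊ := ⟨_, rfl⟩
  obtain ⟨a2, ha'⟩ : ∃ a, a = ⌈(10 * L + 6) / δ⌉₊ := ⟨_, rfl⟩
  have ha1 : Real.sqrt N ≤ a1 := by rw [ha]; exact Nat.le_ceil _
  have ha2 : (a1 : ℝ) ≤ Real.sqrt N + 1 := by rw [ha]; exact (Nat.ceil_lt_add_one (Real.sqrt_nonneg _)).le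
  have ha3 : (10 * L + 6) / δ ≤ a2 := by rw [ha']; exact Nat.le_ceil _
  have ha4 : (a2 : ℝ) ≤ (10 * L + 6) / δ + 1 := by
    rw [ha']; exact (Nat.ceil_lt_add_one (by positivity)).le
  obtain ⟨a, haa⟩ : ∃ a, a = a1 + a2 := ⟨_, rfl⟩
  have hsq1 : 1 ≤ Real.sqrt N := Real.one_le_sqrt.2 hN1
  have hn1a : n1 ≤ a := by
    have h5 : (n1 : ℝ) ≤ Real.sqrt N := by
      apply Real.le_sqrt_of_sq_le
      exact_mod_cast hNn
    have h6 : n1 ≤ a1 := by exact_mod_cast h5.trans ha1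
    omega
  have hWsq : (W : ℝ) ≤ Real.sqrt N := hWx.trans (by
    rw [Real.sqrt_eq_rpow]
    exact Real.rpow_le_rpow_of_exponent_le hN1 (by linarith))
  have hsqN' : Real.sqrt N ≤ N := by
    rw [Real.sqrt_le_left hN0.le]
    nlinarith
  have hWN : (W : ℝ) ≤ N := hWsq.trans hsqN'
  have hWa : W ≤ a := by
    have : W ≤ a1 := by exact_mod_cast hWsq.trans ha1
    omega
  have hwin : ∀ i, a + i * W ≤ N →
      (((range W).filter (fun j => Bad δ ξ θ (a + i * W + j))).card : ℝ) ≤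
      Real.sqrt (2 * t * W) + 1 := by
    intro i hi
    have hnN : ((a + i * W : ℕ) : ℝ) ≤ N := by exact_mod_cast hi
    have hna0 : (a : ℝ) ≤ ((a + i * W : ℕ) : ℝ) := by exact_mod_cast Nat.le_add_right a (i * W)
    have haar : (a : ℝ) = a1 + a2 := by rw [haa]; push_cast; ring
    have hna : Real.sqrt N ≤ ((a + i * W : ℕ) : ℝ) := by
      have : (0 : ℝ) ≤ a2 := Nat.cast_nonneg _
      linarith
    have hn0 : (0 : ℝ) < ((a + i * W : ℕ) : ℝ) := by linarith
    have hlog1 : ∀ n' : ℕ, a + i * W ≤ n' → Real.log N / 2 ≤ Real.log (n' : ℝ) := by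
      intro n' hn'
      rw [← Real.log_sqrt hN0.le]
      have : ((a + i * W : ℕ) : ℝ) ≤ n' := by exact_mod_cast hn'
      exact Real.log_le_log (by linarith) (by linarith)
    refine arc_quad _ _ _ ?_
    refine window hF hVB hPIG n1 hPAR (a + i * W) W t δ ξ θ (by omega) hδ hδ1 hξ ht ?_ hW1
      (by omega) ?_ ?_
    · intro n' h1 h2
      have h3 := hlog1 n' h1
      have h4 : (n' : ℝ) ≤ N ^ 2 := by
        have h5 : (n' : ℝ) ≤ 2 * ((a + i * W : ℕ) : ℝ) := by exact_mod_cast h2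
        nlinarith
      have hn'0 : (0 : ℝ) < n' := by
        have : ((a + i * W : ℕ) : ℝ) ≤ n' := by exact_mod_cast h1
        linarith
      have h5 : Real.log n' ≤ 2 * Real.log N := by
        have := Real.log_le_log hn'0 h4
        rw [Real.log_pow] at this
        push_cast at this
        exact this
      have h6 : Real.log (Real.log n') ≤ 2 * Real.log (Real.log N) := by
        have h7 := Real.log_le_log (show 0 < Real.log (n' : ℝ) by linarith) h5
        rw [Real.log_mul (by norm_num) (by linarith)] at h7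
        have h8 := Real.log_le_log (by norm_num : (0:ℝ) < 2) hl2
        linarith
      have h9 : δ * (Real.log N / 2) ≤ δ * Real.log (n' : ℝ) :=
        mul_le_mul_of_nonneg_left h3 hδ.le
      linarith
    · have h5 : 16 * ((t : ℝ) + 1) * (kap / 2 * Real.log N) = δ / 2 * (Real.log N / 2) := by
        rw [hkap]
        field_simp
      calc 16 * ((t : ℝ) + 1) * Real.log W ≤ 16 * ((t : ℝ) + 1) * (kap / 2 * Real.log N) := by
            gcongr
        _ ≤ _ := by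
            rw [h5]
            exact mul_le_mul_of_nonneg_left (hlog1 _ le_rfl) (by positivity)
    · have h5 : (10 * L + 6) / δ ≤ ((a + i * W : ℕ) : ℝ) := by
        have : (0 : ℝ) ≤ a1 := Nat.cast_nonneg _
        linarith
      rw [div_le_iff₀ hδ] at h5
      linarith
  have hcov := arc_cover (fun n => Bad δ ξ θ n) N a W hW1 _ (by positivity) hwin
  set y : ℝ := (N : ℝ) ^ (kap / 4) with hy
  have hy1 : 1 ≤ y := Real.one_le_rpow hN1 (by positivity)
  have hyx : y ^ 2 = x := by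
    rw [hy, hx, ← Real.rpow_natCast, ← Real.rpow_mul hN0.le]
    congr 1
    push_cast
    ring
  have ht0 : (0 : ℝ) ≤ t := by linarith
  have hsy : Real.sqrt (2 * t * W) * y ≤ 2 * t * W := by
    have h5 : (Real.sqrt (2 * t * W) * y) ^ 2 ≤ (2 * t * W) ^ 2 := by
      rw [mul_pow, Real.sq_sqrt (by positivity), hyx]
      have h6 : 2 * (t : ℝ) * W * x ≤ 2 * t * W * (2 * W) := by gcongr
      have h7 : 2 * (t : ℝ) * W * (2 * W) ≤ (2 * t * W) ^ 2 := by
        have h8 : (2 * (t : ℝ) * W) ^ 2 = 2 * t * W * (2 * W) * t := by ring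
        rw [h8]
        have h9 : 0 ≤ 2 * (t : ℝ) * W * (2 * W) := by positivity
        nlinarith
      linarith
    exact le_of_sq_le_sq h5 (by positivity)
  have hdiv : ((N / W : ℕ) : ℝ) ≤ N / W := Nat.cast_div_le
  have hNW : 1 ≤ (N : ℝ) / W := by rw [le_div_iff₀ hW0]; linarith
  have hs1 : 1 ≤ Real.sqrt (2 * t * W) := by
    apply Real.one_le_sqrt.2
    have h6 : (1 : ℝ) ≤ W := by exact_mod_cast hW1
    nlinarith
  have hprod : ((N / W + 1 : ℕ) : ℝ) * (Real.sqrt (2 * t * W) + 1) ≤ 8 * t * (N / y) := by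
    calc ((N / W + 1 : ℕ) : ℝ) * (Real.sqrt (2 * t * W) + 1)
        ≤ (2 * ((N : ℝ) / W)) * (2 * Real.sqrt (2 * t * W)) := by
          push_cast
          gcongr
          · linarith
          · linarith
      _ = 4 * (N / W) * Real.sqrt (2 * t * W) := by ring
      _ ≤ 4 * (N / W) * (2 * t * W / y) := by
          gcongr
          rw [le_div_iff₀ (by linarith)]
          exact hsy
      _ = 8 * t * (N / y) := by
          field_simp
          ring
  have hNy : (N : ℝ) / y ≤ (N : ℝ) ^ (1 - δ ^ 2 / 1280) := by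
    have h5 : (N : ℝ) / y = (N : ℝ) ^ (1 - kap / 4) := by
      rw [Real.rpow_sub hN0, Real.rpow_one]
    rw [h5]
    exact Real.rpow_le_rpow_of_exponent_le hN1 (by linarith)
  have hsqN : Real.sqrt N ≤ (N : ℝ) ^ (1 - δ ^ 2 / 1280) := by
    rw [Real.sqrt_eq_rpow]
    refine Real.rpow_le_rpow_of_exponent_le hN1 ?_
    nlinarith
  set Z : ℝ := (N : ℝ) ^ (1 - δ ^ 2 / 1280) with hZ
  have hZ0 : 0 < Z := Real.rpow_pos_of_pos hN0 _
  have hZ1 : 1 ≤ Z := by linarith
  have hfin : 8 * (t : ℝ) * (N / y) ≤ 8 * t * Z := mul_le_mul_of_nonneg_left hNy (by linarith)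
  have haar : (a : ℝ) = a1 + a2 := by rw [haa]; push_cast; ring
  have e1 : (10 * L + 6) / δ = 10 / δ * L + 6 / δ := by ring
  clear_value Z y x
  calc (((Icc 1 N).filter (fun n : ℕ => Bad δ ξ θ n)).card : ℝ)
      ≤ a + ((N / W + 1 : ℕ) : ℝ) * (Real.sqrt (2 * t * W) + 1) := hcov
    _ ≤ (2 * Z + 1) + (10 / δ * L + 6 / δ) + 8 * t * Z := by
        rw [e1] at ha4
        linarith
    _ ≤ 81 / δ * Z + 10 / δ * L := by
        have h5 : 81 / δ * Z = 72 / δ * Z + 6 / δ * Z + 3 * (1 / δ * Z) := by ring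
        have h6 : 8 * (t : ℝ) * Z ≤ 72 / δ * Z := by
          refine mul_le_mul_of_nonneg_right ?_ hZ0.le
          have : 72 / δ = 8 * (9 / δ) := by ring
          linarith
        have h7 : 6 / δ ≤ 6 / δ * Z := by
          have : 0 ≤ 6 / δ := by positivity
          nlinarith
        have h8 : Z ≤ 1 / δ * Z := by nlinarith
        linarith

open Classical in
/-- **Few well approximable numbers.** -/
theorem arc : ∃ A : ℝ, 0 < A ∧ ∀ δ : ℝ, 0 < δ → δ ≤ 1 → ∀ N : ℕ, 1 ≤ N → ∀ ξ θ : ℝ, ξ ≠ 0 →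
    (((Icc 1 N).filter (fun n : ℕ => Bad δ ξ θ n)).card : ℝ) ≤
      A / δ * ((N : ℝ) ^ (1 - δ ^ 2 / 1280) + |Real.log (|ξ|)|) := by
  obtain ⟨n1, hPAR⟩ := t_PAR
  refine ⟨(n1 ^ 2 + 8 : ℕ) + Real.exp 820 + 81, by positivity, ?_⟩
  intro δ hδ hδ1 N hN ξ θ hξ
  have hN1 : (1 : ℝ) ≤ N := by exact_mod_cast hN
  have hN0 : (0 : ℝ) < N := by linarith
  have hcard : (((Icc 1 N).filter (fun n : ℕ => Bad δ ξ θ n)).card : ℝ) ≤ N := by
    have h5 := card_filter_le (Icc 1 N) (fun n : ℕ => Bad δ ξ θ n)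
    rw [Nat.card_Icc] at h5
    have h6 : N + 1 - 1 = N := by omega
    rw [h6] at h5
    exact_mod_cast h5
  have hZ1 : 1 ≤ (N : ℝ) ^ (1 - δ ^ 2 / 1280) := Real.one_le_rpow hN1 (by nlinarith)
  have hZN : (N : ℝ) ^ (δ ^ 2 / 1280) * (N : ℝ) ^ (1 - δ ^ 2 / 1280) = N := by
    rw [← Real.rpow_add hN0]
    simp
  set Z : ℝ := (N : ℝ) ^ (1 - δ ^ 2 / 1280) with hZ
  set L : ℝ := |Real.log (|ξ|)| with hLd
  have hL0 : 0 ≤ L := abs_nonneg _
  set A : ℝ := (n1 ^ 2 + 8 : ℕ) + Real.exp 820 + 81 with hA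
  have hA0 : 0 < A := by positivity
  have hexp : 0 < Real.exp 820 := Real.exp_pos _
  have hn0 : (0 : ℝ) ≤ ((n1 ^ 2 + 8 : ℕ) : ℝ) := Nat.cast_nonneg _
  have hAδ : A ≤ A / δ := by
    rw [le_div_iff₀ hδ]
    nlinarith
  have hbig : ∀ y : ℝ, 0 ≤ y → y ≤ A * Z → y ≤ A / δ * (Z + L) := by
    intro y _ hy
    refine hy.trans ?_
    exact mul_le_mul hAδ (by linarith) (by linarith) (by positivity)
  by_cases hsmall : N < n1 ^ 2 + 8
  · refine hcard.trans (hbig _ hN0.le ?_)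
    have h1 : (N : ℝ) ≤ ((n1 ^ 2 + 8 : ℕ) : ℝ) := by exact_mod_cast hsmall.le
    nlinarith
  · by_cases hl : δ * Real.log N < 512 * Real.log (Real.log N)
    · refine hcard.trans (hbig _ hN0.le ?_)
      have h1 := log_small δ N hδ (by omega) hl
      rw [← hZN]
      refine mul_le_mul_of_nonneg_right (h1.trans ?_) (by linarith)
      linarith
    · push Not at hl
      have h5 := arc_big (t_FORM t_INT t_SIZ t_PF t_EXP t_PRO) t_VB t_PIG n1 hPAR δ ξ θ N hδ hδ1
        (by omega) (by omega) hξ hl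
      refine h5.trans ?_
      have h6 : 81 / δ ≤ A / δ := div_le_div_of_nonneg_right (by linarith) hδ.le
      have h7 : 10 / δ ≤ A / δ := div_le_div_of_nonneg_right (by linarith) hδ.le
      rw [mul_add]
      exact add_le_add (mul_le_mul_of_nonneg_right h6 (by linarith))
        (mul_le_mul_of_nonneg_right h7 hL0)

end Pool.Agent.TH373.EN
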