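import Pool.Agent.H771R3.EN.Defs
import Pool.Agent.H771R3.EN.CONT

/-!
# Contradiction from many approximations of `μ e ^ n` by rational numbers of small denominators
-/

set_option autoImplicit false

namespace Pool.Agent.TH373.EN

open Finset Pool.Agent.H771R3.EN

theorem con (h : S_FORM) (T : Finset ℕ) (n d m W : ℕ) (ψ μ D : ℝ) (k : ℕ → ℕ) (b : ℕ → ℤ)
    (hT : T.Nonempty) (hm : 1 ≤ m) (hW : ∀ j ∈ T, j ≤ W) (hd : 1 ≤ d) (hdW : d ≤ W) (hμ : 0 < μ)
    (hk : ∀ j ∈ T, 1 ≤ k j)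
    (hnear : ∀ j ∈ T, |μ * (Real.exp ((n : ℝ) + j + d) - Real.exp ((n : ℝ) + j)) - b j / k j| ≤
      2 * ψ)
    (hD : ∏ j ∈ T, (k j : ℝ) ≤ D)
    (h1 : 2 * (D * μ * Real.exp ((n : ℝ) + 2 * W)) * (V T : ℝ) ^ (2 * m) * ((m - 1).factorial : ℝ) ≤
      ((m * T.card - 1).factorial : ℝ))
    (h2 : 6 * (T.card : ℝ) * 2 ^ (m * T.card) * ((m * T.card - 1).factorial : ℝ) * ψ <
      μ * Real.exp n) : False := by
  obtain ⟨c, g, hsum, hg1, hg2, hc⟩ := h T m W hT hm hW
  have hVpos : (0 : ℝ) < (V T : ℝ) := by exact_mod_cast con_V T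
  set P : ℝ := (V T : ℝ) ^ (2 * m) * ((m - 1).factorial : ℝ) with hP
  have hPpos : 0 < P := by
    have : (0 : ℝ) < ((m - 1).factorial : ℝ) := by exact_mod_cast Nat.factorial_pos _
    positivity
  set F : ℝ := ((m * T.card - 1).factorial : ℝ) with hF
  have hFpos : 0 < F := by
    have : (0 : ℝ) < ((m * T.card - 1).factorial : ℝ) := by exact_mod_cast Nat.factorial_pos _
    exact this
  set lam : ℝ := Real.exp d - 1 with hlam
  have hlam1 : 1 ≤ lam := by
    have h3 := Real.add_one_le_exp (d : ℝ)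
    have h4 : (1 : ℝ) ≤ d := by exact_mod_cast hd
    rw [hlam]; linarith
  have hlam2 : lam ≤ Real.exp W := by
    have h3 : Real.exp (d : ℝ) ≤ Real.exp (W : ℝ) :=
      Real.exp_le_exp.mpr (by exact_mod_cast hdW)
    rw [hlam]; linarith
  have hψ : 0 ≤ ψ := by
    obtain ⟨j, hj⟩ := hT
    have h3 := hnear j hj
    have h4 := abs_nonneg (μ * (Real.exp ((n : ℝ) + j + d) - Real.exp ((n : ℝ) + j)) - b j / k j)
    linarith
  -- the common denominator
  set D0 : ℕ := ∏ j ∈ T, k j with hD0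
  have hD0pos : 0 < D0 := Finset.prod_pos fun j hj => hk j hj
  have hD0r : (0 : ℝ) < D0 := by exact_mod_cast hD0pos
  have hD0D : (D0 : ℝ) ≤ D := by
    rw [hD0]
    push_cast
    exact hD
  let q : ℕ → ℕ := fun j => ∏ i ∈ T.erase j, k i
  have hq : ∀ j ∈ T, (k j : ℝ) * q j = D0 := by
    intro j hj
    have := Finset.mul_prod_erase T k hj
    rw [hD0, ← this, Nat.cast_mul]
  have hY : ∑ j ∈ T, (c j : ℝ) * (D0 * (μ * (Real.exp ((n : ℝ) + j + d) -
      Real.exp ((n : ℝ) + j)))) = D0 * μ * lam * Real.exp n * (P * g) := by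
    rw [← hsum, Finset.mul_sum]
    refine Finset.sum_congr rfl fun j _ => ?_
    rw [Real.exp_add, Real.exp_add, hlam]
    ring
  have herr : |∑ j ∈ T, (c j : ℝ) * (D0 * (μ * (Real.exp ((n : ℝ) + j + d) -
      Real.exp ((n : ℝ) + j)))) - ((∑ j ∈ T, c j * (q j * b j) : ℤ) : ℝ)| ≤
      D0 * (2 * ψ * (3 * (T.card : ℝ) * P * 2 ^ (m * T.card))) := by
    have e1 : ∑ j ∈ T, (c j : ℝ) * (D0 * (μ * (Real.exp ((n : ℝ) + j + d) -
      Real.exp ((n : ℝ) + j)))) - ((∑ j ∈ T, c j * (q j * b j) : ℤ) : ℝ) =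
      ∑ j ∈ T, (c j : ℝ) * (D0 * (μ * (Real.exp ((n : ℝ) + j + d) - Real.exp ((n : ℝ) + j)) -
        b j / k j)) := by
      push_cast
      rw [← Finset.sum_sub_distrib]
      refine Finset.sum_congr rfl fun j hj => ?_
      have hkj : (k j : ℝ) ≠ 0 := by
        have := hk j hj
        positivity
      rw [← hq j hj]
      field_simp
    rw [e1]
    refine (Finset.abs_sum_le_sum_abs _ _).trans ?_
    have e2 : ∑ j ∈ T, |(c j : ℝ) * (D0 * (μ * (Real.exp ((n : ℝ) + j + d) -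
        Real.exp ((n : ℝ) + j)) - b j / k j))| ≤
        ∑ j ∈ T, (D0 * (2 * ψ)) * |(c j : ℝ)| := by
      refine Finset.sum_le_sum fun j hj => ?_
      rw [abs_mul, mul_comm, abs_mul, abs_of_pos hD0r]
      exact mul_le_mul_of_nonneg_right (mul_le_mul_of_nonneg_left (hnear j hj) hD0r.le)
        (abs_nonneg _)
    refine e2.trans ?_
    rw [← Finset.mul_sum, mul_assoc]
    refine mul_le_mul_of_nonneg_left ?_ hD0r.le
    refine mul_le_mul_of_nonneg_left (hc.trans (le_of_eq ?_)) (by positivity)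
    rw [hP]; ring
  set Y : ℝ := D0 * μ * lam * Real.exp n * (P * g) with hYdef
  rw [hY] at herr
  have hgl : 1 ≤ g * F := by
    have := (div_le_iff₀ hFpos).mp hg1
    linarith
  have hgu : g * F ≤ Real.exp W := by
    have := (le_div_iff₀ hFpos).mp hg2
    linarith
  have hgpos : 0 < g := by
    have : 0 < 1 / F := by positivity
    linarith
  have hen : 0 < Real.exp (n : ℝ) := Real.exp_pos _
  have hew : 0 < Real.exp (W : ℝ) := Real.exp_pos _
  -- lower bound
  have hlow : D0 * (μ * Real.exp n * P) ≤ Y * F := by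
    have e3 : Y * F = (lam * (g * F)) * (D0 * (μ * Real.exp n * P)) := by rw [hYdef]; ring
    have e4 : 1 ≤ lam * (g * F) := by nlinarith
    rw [e3]
    have : 0 < D0 * (μ * Real.exp (n : ℝ) * P) := by positivity
    nlinarith
  have hup : 2 * (Y * F) ≤ F := by
    have e3 : Y * F = (lam * (g * F)) * (D0 * μ * Real.exp n * P) := by rw [hYdef]; ring
    have e4 : lam * (g * F) ≤ Real.exp W * Real.exp W := by
      refine mul_le_mul hlam2 hgu ?_ hew.le
      positivity
    have e5 : Real.exp ((n : ℝ) + 2 * W) = Real.exp n * (Real.exp W * Real.exp W) := by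
      rw [← Real.exp_add, ← Real.exp_add]; congr 1; ring
    have e6 : 2 * (D * μ * (Real.exp n * (Real.exp W * Real.exp W))) * P ≤ F := by
      rw [e5] at h1
      calc _ = 2 * (D * μ * (Real.exp n * (Real.exp W * Real.exp W))) * (V T : ℝ) ^ (2 * m) *
            ((m - 1).factorial : ℝ) := by rw [hP]; ring
        _ ≤ _ := h1
    have e7 : (lam * (g * F)) * (D0 * μ * Real.exp n * P) ≤
        (Real.exp W * Real.exp W) * (D * μ * Real.exp n * P) := by
      refine mul_le_mul e4 ?_ (by positivity) (by positivity)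
      have : 0 ≤ μ * Real.exp n * P := by positivity
      nlinarith
    rw [e3]
    linarith [e6, e7]
  have herr2 : D0 * (2 * ψ * (3 * (T.card : ℝ) * P * 2 ^ (m * T.card))) * F <
      D0 * (μ * Real.exp n * P) := by
    have e8 : D0 * (2 * ψ * (3 * (T.card : ℝ) * P * 2 ^ (m * T.card))) * F =
      D0 * ((6 * (T.card : ℝ) * 2 ^ (m * T.card) * F * ψ) * P) := by ring
    rw [e8]
    exact mul_lt_mul_of_pos_left (mul_lt_mul_of_pos_right h2 hPpos) hD0r
  set err : ℝ := D0 * (2 * ψ * (3 * (T.card : ℝ) * P * 2 ^ (m * T.card))) with herrdef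
  have hYerr : err < Y := by
    have : err * F < Y * F := lt_of_lt_of_le herr2 hlow
    exact lt_of_mul_lt_mul_right this hFpos.le
  have hY2 : 2 * Y ≤ 1 := by
    have : 2 * Y * F ≤ 1 * F := by linarith
    exact le_of_mul_le_mul_right this hFpos
  obtain ⟨l1, l2⟩ := abs_le.mp herr
  have hB1 : (0 : ℝ) < ((∑ j ∈ T, c j * (q j * b j) : ℤ) : ℝ) := by linarith
  have hB2 : ((∑ j ∈ T, c j * (q j * b j) : ℤ) : ℝ) < 1 := by linarith
  have hB1' : 0 < ∑ j ∈ T, c j * (q j * b j) := by exact_mod_cast hB1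
  have hB2' : ∑ j ∈ T, c j * (q j * b j) < 1 := by exact_mod_cast hB2
  omega

end Pool.Agent.TH373.EN
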