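import Pool.Agent.TH373.EN.SpanWin
import Pool.Agent.H771R3.EN.ARC
import Pool.Agent.H771R3.EN.FORM
import Pool.Agent.H771R3.EN.INT
import Pool.Agent.H771R3.EN.SIZ
import Pool.Agent.H771R3.EN.PF
import Pool.Agent.H771R3.EN.EXP
import Pool.Agent.H771R3.EN.PRO
import Pool.Agent.H771R3.EN.VB
import Pool.Agent.H771R3.EN.PAR

/-!
# Few `n` with `ξ e ^ n` exponentially close to a finite-dimensional space
-/

set_option autoImplicit false

namespace Pool.Agent.TH373.EN

open Finset Pool.Agent.H771R3.EN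

open Classical in
/-- few bad elements in a window -/
theorem windowS (hF : S_FORM) (hVB : S_VB) (n1 : ℕ)
    (hPAR : ∀ (n t W : ℕ) (δ : ℝ), n1 ≤ n → 0 < δ → δ ≤ 1 →
      64 * Real.log (Real.log n) ≤ δ * Real.log n → t = ⌈4 / δ⌉₊ → 1 ≤ W →
      16 * ((t : ℝ) + 1) * Real.log W ≤ δ * Real.log n →
      ∃ m : ℕ, 1 ≤ m ∧
        2 * Real.exp ((n : ℝ) + 2 * W) * (W : ℝ) ^ (t * (t + 1) * m) * ((m - 1).factorial : ℝ) ≤
          ((m * (t + 1) - 1).factorial : ℝ) ∧
        6 * ((t : ℝ) + 1) * 2 ^ (m * (t + 1)) * ((m * (t + 1) - 1).factorial : ℝ) *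
          Real.exp (-(δ * n)) < Real.exp n)
    {r : ℕ} (τ : Fin r → ℝ) (n W t : ℕ) (δ ε ξ : ℝ) (hn : n1 ≤ n) (hδ : 0 < δ) (hδ1 : δ ≤ 1)
    (hε : ε = δ / (r + 2)) (hξ : ξ ≠ 0) (ht : t = ⌈24 / ε⌉₊)
    (hlog : ∀ n' : ℕ, n ≤ n' → n' ≤ 3 * n → 64 * Real.log (Real.log n') ≤ ε / 6 * Real.log n')
    (hW : 1 ≤ W) (hWn : W ≤ n) (hW2 : 16 * ((t : ℝ) + 1) * Real.log W ≤ ε / 6 * Real.log n)
    (hL : 3 * |Real.log (|ξ|)| + 3 ≤ ε * n) (hr : 4 * (r : ℝ) * (r + 1) * (r + 2) ≤ δ * n) :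
    ((range W).filter (fun j : ℕ => BadS τ δ ξ (n + j))).card ≤ t := by
  set S : Finset ℕ := (range W).filter (fun j : ℕ => BadS τ δ ξ (n + j)) with hS
  by_contra hlt
  rw [not_le] at hlt
  obtain ⟨T, hTsub, hTcard⟩ := Finset.exists_subset_card_eq (show t + 1 ≤ S.card from hlt)
  have hr0 : (0 : ℝ) ≤ r := Nat.cast_nonneg r
  have hε0 : 0 < ε := by rw [hε]; positivity
  have hε2 : ε ≤ 1 / 2 := by
    rw [hε, div_le_div_iff₀ (by positivity) (by norm_num)]
    linarith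
  have hn0 : (0 : ℝ) < n := by
    have : 1 ≤ n := hW.trans hWn
    positivity
  set L : ℝ := |Real.log (|ξ|)| with hLd
  have hL0 : 0 ≤ L := abs_nonneg _
  -- simultaneous approximation
  set K : ℕ := ⌊Real.exp (δ * n / (r + 1))⌋₊ with hKd
  have hexp1 : 1 ≤ Real.exp (δ * n / (r + 1)) := Real.one_le_exp (by positivity)
  have hK : 1 ≤ K := Nat.le_floor (by rw [Nat.cast_one]; exact hexp1)
  have hK1 : (K : ℝ) ≤ Real.exp (δ * n / (r + 1)) := Nat.floor_le (by linarith)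
  have hKr : (1 : ℝ) ≤ K := by exact_mod_cast hK
  have hK2 : Real.exp (δ * n / (r + 1)) ≤ 2 * K := by
    have := Nat.lt_floor_add_one (Real.exp (δ * n / (r + 1)))
    rw [← hKd] at this
    linarith
  obtain ⟨q, hq1, hqK, p, hp⟩ := dirichlet τ K hK
  have hqr : (1 : ℝ) ≤ q := by exact_mod_cast hq1
  have hqn : Real.log q ≤ n := by
    rw [Real.log_le_iff_le_exp (by linarith)]
    calc (q : ℝ) ≤ (K : ℝ) ^ r := by exact_mod_cast hqK
      _ ≤ Real.exp (δ * n / (r + 1)) ^ r := pow_le_pow_left₀ (by positivity) hK1 r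
      _ = Real.exp (r * (δ * n / (r + 1))) := by rw [← Real.exp_nat_mul]
      _ ≤ Real.exp n := by
          apply Real.exp_le_exp.2
          have e : (r : ℝ) * (δ * n / (r + 1)) = (δ * n) * (r / (r + 1)) := by ring
          rw [e]
          have h1 : (r : ℝ) / (r + 1) ≤ 1 := by
            rw [div_le_one (by positivity)]
            linarith
          have h2 : δ * n ≤ n := by nlinarith
          calc (δ * n) * ((r : ℝ) / (r + 1)) ≤ (δ * n) * 1 :=
                mul_le_mul_of_nonneg_left h1 (by positivity)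
            _ ≤ n := by linarith
  set μ : ℝ := q * |ξ| with hμ
  have hξ0 : 0 < |ξ| := abs_pos.2 hξ
  have hμ0 : 0 < μ := by positivity
  have hlogμ : Real.log μ = Real.log q + Real.log |ξ| := Real.log_mul (by linarith) hξ0.ne'
  have hlogq : 0 ≤ Real.log q := Real.log_nonneg hqr
  have hμL : -L ≤ Real.log μ := by
    rw [hlogμ]
    have := neg_abs_le (Real.log |ξ|)
    linarith
  have hμU : Real.log μ ≤ n + L := by
    rw [hlogμ]
    have := le_abs_self (Real.log |ξ|)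
    linarith
  set M : ℝ := max (Real.log μ) 0 with hM
  have hM0 : 0 ≤ M := le_max_right _ _
  have hMμ : Real.log μ ≤ M := le_max_left _ _
  have hMU : M ≤ n + L := max_le hμU (by linarith)
  have hML : M ≤ Real.log μ + L := max_le (by linarith) (by linarith)
  -- the parameter
  set x : ℕ := ⌈ε * n / 100 + M⌉₊ with hx
  have hx1 : ε * n / 100 + M ≤ x := Nat.le_ceil _
  have hx2 : (x : ℝ) < ε * n / 100 + M + 1 := Nat.ceil_lt_add_one (by positivity)
  have hεn : ε * n ≤ n / 2 := by nlinarith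
  have hxn : x ≤ 2 * n := by
    have : (x : ℝ) ≤ 2 * n := by linarith
    exact_mod_cast this
  set n' : ℕ := n + x with hn'
  have hn'r : (n' : ℝ) = n + x := by rw [hn']; push_cast; ring
  have hnn' : n ≤ n' := Nat.le_add_right _ _
  have hn'3 : (n' : ℝ) ≤ 3 * n := by
    have : n' ≤ 3 * n := by omega
    exact_mod_cast this
  have hlogn : Real.log n ≤ Real.log n' := Real.log_le_log hn0 (by exact_mod_cast hnn')
  obtain ⟨m, hm1, hmA, hmB⟩ := hPAR n' t W (ε / 6) (hn.trans hnn') (by positivity) (by linarith)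
    (hlog n' hnn' (by omega)) (by
      rw [ht]
      congr 1
      field_simp
      norm_num) hW (hW2.trans (mul_le_mul_of_nonneg_left hlogn (by positivity)))
  have hTS : ∀ j ∈ T, j < W ∧ BadS τ δ ξ (n + j) := by
    intro j hj
    have := hTsub hj
    rw [hS, mem_filter, mem_range] at this
    exact this
  have helem : ∀ j ∈ T, ∃ (B : ℤ) (k : ℕ), 1 ≤ k ∧
      (k : ℝ) ≤ Real.exp ((δ / (r + 2)) ^ 2 / 2500 * n) ∧
      |k * (q * |ξ| * Real.exp ((n : ℝ) + j)) - B| ≤ Real.exp (-(δ / (r + 2) * n)) := by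
    intro j hj
    obtain ⟨hj1, hj2⟩ := hTS j hj
    exact badS_elem hδ hδ1 hξ hWn hj1 hr K q hK hq1 hqK hK1 hK2 p hp hj2
  choose! b k hk1 hk2 hk3 using helem
  rw [← hε] at hk2 hk3
  have hTW : ∀ j ∈ T, j ≤ W := fun j hj => (hTS j hj).1.le
  have hne : T.Nonempty := by
    rw [← Finset.card_pos, hTcard]
    omega
  have hVT : (V T : ℝ) ^ (2 * m) ≤ (W : ℝ) ^ (t * (t + 1) * m) := by
    have h := hVB T W t hTW hW hTcard
    have h' : ((V T) ^ 2) ^ m ≤ (W ^ (t * (t + 1))) ^ m :=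
      Nat.pow_le_pow_left h m
    rw [← pow_mul, ← pow_mul] at h'
    exact_mod_cast h'
  -- the bound for `t`
  have ht1 : (t : ℝ) + 1 ≤ 25 / ε := by
    have h1 : (t : ℝ) < 24 / ε + 1 := by rw [ht]; exact Nat.ceil_lt_add_one (by positivity)
    have h2 : 2 ≤ 1 / ε := by
      rw [le_div_iff₀ hε0]
      linarith
    have h3 : 25 / ε = 24 / ε + 1 / ε := by ring
    linarith
  have hprod : ∏ j ∈ T, (k j : ℝ) ≤ Real.exp (ε * n / 100) := by
    calc ∏ j ∈ T, (k j : ℝ) ≤ ∏ j ∈ T, Real.exp (ε ^ 2 / 2500 * n) :=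
          Finset.prod_le_prod (fun j _ => Nat.cast_nonneg _) hk2
      _ = Real.exp (((t : ℝ) + 1) * (ε ^ 2 / 2500 * n)) := by
          rw [Finset.prod_const, hTcard, ← Real.exp_nat_mul]
          push_cast
          rfl
      _ ≤ Real.exp (ε * n / 100) := by
          apply Real.exp_le_exp.2
          have h1 : ((t : ℝ) + 1) * (ε ^ 2 / 2500 * n) ≤ 25 / ε * (ε ^ 2 / 2500 * n) :=
            mul_le_mul_of_nonneg_right ht1 (by positivity)
          have h2 : 25 / ε * (ε ^ 2 / 2500 * (n : ℝ)) = ε * n / 100 := by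
            field_simp
            norm_num
          linarith
  have hμexp : μ ≤ Real.exp M := by
    rw [← Real.log_le_iff_le_exp hμ0]
    exact hMμ
  refine con_hom hF T n m W (Real.exp (-(ε * n))) μ (Real.exp (ε * n / 100)) k b hne hm1 hTW
    hμ0 hk1 hk3 hprod ?_ ?_
  · rw [hTcard]
    refine le_trans ?_ hmA
    apply mul_le_mul_of_nonneg_right _ (by positivity)
    refine mul_le_mul (mul_le_mul_of_nonneg_left ?_ (by norm_num)) hVT (by positivity)
      (by positivity)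
    calc Real.exp (ε * n / 100) * μ * Real.exp ((n : ℝ) + 2 * W)
        ≤ Real.exp (ε * n / 100) * Real.exp M * Real.exp ((n : ℝ) + 2 * W) := by gcongr
      _ = Real.exp (ε * n / 100 + M + ((n : ℝ) + 2 * W)) := by rw [← Real.exp_add, ← Real.exp_add]
      _ ≤ Real.exp ((n' : ℝ) + 2 * W) := by
          apply Real.exp_le_exp.2
          rw [hn'r]
          linarith
  · rw [hTcard]
    have h1 : 6 * ((t : ℝ) + 1) * 2 ^ (m * (t + 1)) * ((m * (t + 1) - 1).factorial : ℝ) <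
        Real.exp ((n' : ℝ) * (1 + ε / 6)) := by
      have h2 : Real.exp (-(ε / 6 * (n' : ℝ))) * Real.exp ((n' : ℝ) * (1 + ε / 6)) =
          Real.exp n' := by
        rw [← Real.exp_add]
        congr 1
        ring
      rw [← h2, mul_comm (Real.exp (-(ε / 6 * (n' : ℝ))))] at hmB
      exact lt_of_mul_lt_mul_right hmB (Real.exp_pos _).le
    have h3 : Real.exp ((n' : ℝ) * (1 + ε / 6)) * Real.exp (-(ε * n)) ≤ μ * Real.exp n := by
      calc Real.exp ((n' : ℝ) * (1 + ε / 6)) * Real.exp (-(ε * n))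
          = Real.exp ((n' : ℝ) * (1 + ε / 6) - ε * n) := by
            rw [← Real.exp_add]; congr 1
        _ ≤ Real.exp (Real.log μ + n) := by
            apply Real.exp_le_exp.2
            have h4 : (n' : ℝ) * (ε / 6) ≤ 3 * n * (ε / 6) :=
              mul_le_mul_of_nonneg_right hn'3 (by positivity)
            have h5 : (n' : ℝ) * (1 + ε / 6) = n' + n' * (ε / 6) := by ring
            have h6 : (n' : ℝ) ≤ n + (ε * n / 100 + M + 1) := by rw [hn'r]; linarith
            rw [h5]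
            linarith
        _ = μ * Real.exp n := by rw [Real.exp_add, Real.exp_log hμ0]
    have h6 := mul_lt_mul_of_pos_right h1 (Real.exp_pos (-(ε * (n : ℝ))))
    push_cast at h6 ⊢
    exact h6.trans_le h3

theorem log_smallS (ε : ℝ) (N : ℕ) (hε : 0 < ε) (hN : 3 ≤ N)
    (h : ε * Real.log N < 1536 * Real.log (Real.log N)) :
    (N : ℝ) ^ (ε ^ 2 / 5000) ≤ Real.exp 1888 := by
  have hN0 : (0 : ℝ) < N := by
    have : 0 < N := by omega
    exact_mod_cast this
  have hl : 1 ≤ Real.log N := by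
    have h3 : (3 : ℝ) ≤ N := by exact_mod_cast hN
    rw [Real.le_log_iff_exp_le hN0]
    have := Real.exp_one_lt_d9
    linarith
  set l := Real.log N with hld
  have hs : 1 ≤ Real.sqrt l := Real.one_le_sqrt.2 hl
  have h1 : Real.log l ≤ 2 * Real.sqrt l := by
    have h2 : Real.log l = 2 * Real.log (Real.sqrt l) := by
      rw [Real.log_sqrt (by linarith)]
      ring
    have h3 := Real.log_le_sub_one_of_pos (show 0 < Real.sqrt l by linarith)
    rw [h2]
    linarith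
  have h4 : ε * l ≤ 3072 * Real.sqrt l := by linarith
  have h5 : Real.sqrt l * Real.sqrt l = l := Real.mul_self_sqrt (by linarith)
  have h6 : ε * Real.sqrt l ≤ 3072 := by
    have h7 : (ε * Real.sqrt l) * Real.sqrt l ≤ 3072 * Real.sqrt l := by
      rw [mul_assoc, h5]
      exact h4
    exact le_of_mul_le_mul_right h7 (by linarith)
  have h8 : ε ^ 2 * l ≤ 9437184 := by
    have h9 : ε ^ 2 * l = (ε * Real.sqrt l) ^ 2 := by
      rw [mul_pow, Real.sq_sqrt (by linarith)]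
    rw [h9]
    have : 0 ≤ ε * Real.sqrt l := by positivity
    nlinarith
  rw [Real.rpow_def_of_pos hN0]
  apply Real.exp_le_exp.2
  rw [← hld]
  have : l * (ε ^ 2 / 5000) = ε ^ 2 * l / 5000 := by ring
  rw [this]
  linarith

open Classical in
/-- the main case -/
theorem arcS_big (hF : S_FORM) (hVB : S_VB) (n1 : ℕ)
    (hPAR : ∀ (n t W : ℕ) (δ : ℝ), n1 ≤ n → 0 < δ → δ ≤ 1 →
      64 * Real.log (Real.log n) ≤ δ * Real.log n → t = ⌈4 / δ⌉₊ → 1 ≤ W →
      16 * ((t : ℝ) + 1) * Real.log W ≤ δ * Real.log n →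
      ∃ m : ℕ, 1 ≤ m ∧
        2 * Real.exp ((n : ℝ) + 2 * W) * (W : ℝ) ^ (t * (t + 1) * m) * ((m - 1).factorial : ℝ) ≤
          ((m * (t + 1) - 1).factorial : ℝ) ∧
        6 * ((t : ℝ) + 1) * 2 ^ (m * (t + 1)) * ((m * (t + 1) - 1).factorial : ℝ) *
          Real.exp (-(δ * n)) < Real.exp n)
    {r : ℕ} (τ : Fin r → ℝ) (δ ε ξ : ℝ) (N : ℕ) (hδ : 0 < δ) (hδ1 : δ ≤ 1)
    (hε : ε = δ / (r + 2)) (hN : 8 ≤ N) (hNn : n1 ^ 2 ≤ N) (hξ : ξ ≠ 0)
    (hl : 1536 * Real.log (Real.log N) ≤ ε * Real.log N) :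
    (((Icc 1 N).filter (fun n : ℕ => BadS τ δ ξ n)).card : ℝ) ≤
      111 * (((r : ℝ) + 2) ^ 3 / δ) * (N : ℝ) ^ (1 - ε ^ 2 / 5000) +
        3 * (((r : ℝ) + 2) ^ 3 / δ) * |Real.log (|ξ|)| := by
  have hr0 : (0 : ℝ) ≤ r := Nat.cast_nonneg r
  have hε0 : 0 < ε := by rw [hε]; positivity
  have hε2 : ε ≤ 1 / 2 := by
    rw [hε, div_le_div_iff₀ (by positivity) (by norm_num)]
    linarith
  have hN0 : (0 : ℝ) < N := by
    have : 0 < N := by omega
    exact_mod_cast this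
  have hN8 : (8 : ℝ) ≤ N := by exact_mod_cast hN
  have hN1 : (1 : ℝ) ≤ N := by linarith
  have hl2 : 2 ≤ Real.log N := by
    rw [Real.le_log_iff_exp_le hN0]
    have h1 := Real.exp_one_lt_d9
    have h2 : Real.exp 2 = Real.exp 1 * Real.exp 1 := by
      rw [← Real.exp_add]; norm_num
    have h3 := Real.exp_pos 1
    rw [h2]
    nlinarith only [h1, h3, hN8]
  obtain ⟨t, ht⟩ : ∃ t, t = ⌈24 / ε⌉₊ := ⟨_, rfl⟩
  have h2ε : 2 ≤ 1 / ε := by
    rw [le_div_iff₀ hε0]
    linarith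
  have ht1 : 24 / ε ≤ t := by rw [ht]; exact Nat.le_ceil _
  have ht2 : (t : ℝ) < 24 / ε + 1 := by rw [ht]; exact Nat.ceil_lt_add_one (by positivity)
  have ht4 : (1 : ℝ) ≤ t := by
    have : 24 / ε = 24 * (1 / ε) := by ring
    linarith
  have ht6 : (t : ℝ) + 1 ≤ 25 / ε := by
    have : 25 / ε = 24 / ε + 1 / ε := by ring
    linarith
  set kap : ℝ := ε / 6 / (16 * ((t : ℝ) + 1)) with hkap
  have hkap0 : 0 < kap := by positivity
  have hkap1 : kap ≤ 1 := by
    rw [hkap, div_le_one (by positivity)]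
    linarith
  have hkap2 : ε ^ 2 / 5000 ≤ kap / 2 := by
    have h5 : ((t : ℝ) + 1) * ε ≤ 25 := by
      rw [le_div_iff₀ hε0] at ht6
      exact ht6
    have e : kap / 2 = ε / (192 * ((t : ℝ) + 1)) := by
      rw [hkap]
      field_simp
      norm_num
    rw [e, div_le_div_iff₀ (by norm_num) (by positivity)]
    have h6 : ((t : ℝ) + 1) * ε * ε ≤ 25 * ε := mul_le_mul_of_nonneg_right h5 hε0.le
    linarith only [h6, hε0]
  set x : ℝ := (N : ℝ) ^ (kap / 2) with hx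
  have hx1 : 1 ≤ x := Real.one_le_rpow hN1 (by positivity)
  obtain ⟨W, hWd⟩ : ∃ W, W = ⌊x⌋₊ := ⟨_, rfl⟩
  have hW1 : 1 ≤ W := by rw [hWd]; exact Nat.le_floor (by exact_mod_cast hx1)
  have hWx : (W : ℝ) ≤ x := by rw [hWd]; exact Nat.floor_le (by linarith)
  have hxW : x ≤ 2 * W := by
    have h5 : x < W + 1 := by rw [hWd]; exact Nat.lt_floor_add_one x
    have h6 : (1 : ℝ) ≤ W := by exact_mod_cast hW1
    linarith
  have hW0 : (0 : ℝ) < W := by
    have h6 : (1 : ℝ) ≤ W := by exact_mod_cast hW1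
    linarith
  have hlogW : Real.log W ≤ kap / 2 * Real.log N := by
    rw [← Real.log_rpow hN0]
    exact Real.log_le_log hW0 hWx
  set L : ℝ := |Real.log (|ξ|)| with hLd
  have hL0 : 0 ≤ L := abs_nonneg _
  set R : ℝ := ((r : ℝ) + 2) ^ 3 / δ with hRd
  have hεR : 1 / ε ≤ R := by
    rw [hε, one_div_div, hRd]
    refine div_le_div_of_nonneg_right ?_ hδ.le
    have : (1 : ℝ) ≤ (r + 2) ^ 2 := one_le_pow₀ (by linarith)
    have h2 : (0 : ℝ) ≤ r + 2 := by linarith only [hr0]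
    nlinarith only [this, h2]
  have hR1 : 1 ≤ R := by linarith
  have hR0 : 0 < R := by linarith
  have hrR : 4 * (r : ℝ) * (r + 1) * (r + 2) / δ ≤ 4 * R := by
    rw [hRd, ← mul_div_assoc]
    refine div_le_div_of_nonneg_right ?_ hδ.le
    have e : 4 * ((r : ℝ) + 2) ^ 3 - 4 * r * (r + 1) * (r + 2) =
      4 * (r + 2) * (3 * r + 4) := by ring
    have : 0 ≤ 4 * ((r : ℝ) + 2) * (3 * r + 4) := by positivity
    linarith
  obtain ⟨a1, ha⟩ : ∃ a, a = ⌈Real.sqrt N⌉₊ := ⟨_, rfl⟩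
  obtain ⟨a2, ha'⟩ : ∃ a, a = ⌈(3 * L + 3) / ε⌉₊ := ⟨_, rfl⟩
  obtain ⟨a3, ha''⟩ : ∃ a, a = ⌈4 * (r : ℝ) * (r + 1) * (r + 2) / δ⌉₊ := ⟨_, rfl⟩
  have ha1 : Real.sqrt N ≤ a1 := by rw [ha]; exact Nat.le_ceil _
  have ha2 : (a1 : ℝ) ≤ Real.sqrt N + 1 := by rw [ha]; exact (Nat.ceil_lt_add_one (Real.sqrt_nonneg _)).le
  have ha3 : (3 * L + 3) / ε ≤ a2 := by rw [ha']; exact Nat.le_ceil _
  have ha4 : (a2 : ℝ) ≤ (3 * L + 3) / ε + 1 := by
    rw [ha']; exact (Nat.ceil_lt_add_one (by positivity)).le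
  have ha5 : 4 * (r : ℝ) * (r + 1) * (r + 2) / δ ≤ a3 := by rw [ha'']; exact Nat.le_ceil _
  have ha6 : (a3 : ℝ) ≤ 4 * (r : ℝ) * (r + 1) * (r + 2) / δ + 1 := by
    rw [ha'']; exact (Nat.ceil_lt_add_one (by positivity)).le
  obtain ⟨a, haa⟩ : ∃ a, a = a1 + a2 + a3 := ⟨_, rfl⟩
  have haar : (a : ℝ) = a1 + a2 + a3 := by rw [haa]; push_cast; ring
  have hp1 : (0 : ℝ) ≤ a1 := Nat.cast_nonneg _
  have hp2 : (0 : ℝ) ≤ a2 := Nat.cast_nonneg _
  have hp3 : (0 : ℝ) ≤ a3 := Nat.cast_nonneg _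
  have hsq1 : 1 ≤ Real.sqrt N := Real.one_le_sqrt.2 hN1
  have hn1a : n1 ≤ a := by
    have h5 : (n1 : ℝ) ≤ Real.sqrt N := by
      apply Real.le_sqrt_of_sq_le
      exact_mod_cast hNn
    have h6 : n1 ≤ a1 := by exact_mod_cast h5.trans ha1
    omega
  have hWsq : (W : ℝ) ≤ Real.sqrt N := hWx.trans (by
    rw [Real.sqrt_eq_rpow]
    exact Real.rpow_le_rpow_of_exponent_le hN1 (by linarith))
  have hsqN' : Real.sqrt N ≤ N := by
    rw [Real.sqrt_le_left hN0.le]
    nlinarith only [hN1]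
  have hWN : (W : ℝ) ≤ N := hWsq.trans hsqN'
  have hWa : W ≤ a := by
    have : W ≤ a1 := by exact_mod_cast hWsq.trans ha1
    omega
  have hwin : ∀ i, a + i * W ≤ N →
      (((range W).filter (fun j => BadS τ δ ξ (a + i * W + j))).card : ℝ) ≤ t := by
    intro i hi
    have hnN : ((a + i * W : ℕ) : ℝ) ≤ N := by exact_mod_cast hi
    have hna0 : (a : ℝ) ≤ ((a + i * W : ℕ) : ℝ) := by exact_mod_cast Nat.le_add_right a (i * W)
    have hna : Real.sqrt N ≤ ((a + i * W : ℕ) : ℝ) := by linarith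
    have hn0 : (0 : ℝ) < ((a + i * W : ℕ) : ℝ) := by linarith
    have hlog1 : ∀ n' : ℕ, a + i * W ≤ n' → Real.log N / 2 ≤ Real.log (n' : ℝ) := by
      intro n' hn'
      rw [← Real.log_sqrt hN0.le]
      have : ((a + i * W : ℕ) : ℝ) ≤ n' := by exact_mod_cast hn'
      exact Real.log_le_log (by linarith) (by linarith)
    have hgoal := windowS hF hVB n1 hPAR τ (a + i * W) W t δ ε ξ (by omega) hδ hδ1 hε hξ ht
      (by
        intro n' h1 h2
        have h3 := hlog1 n' h1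
        have h4 : (n' : ℝ) ≤ N ^ 2 := by
          have h5 : (n' : ℝ) ≤ 3 * ((a + i * W : ℕ) : ℝ) := by exact_mod_cast h2
          nlinarith only [h5, hnN, hN8]
        have hn'0 : (0 : ℝ) < n' := by
          have : ((a + i * W : ℕ) : ℝ) ≤ n' := by exact_mod_cast h1
          linarith
        have h5 : Real.log n' ≤ 2 * Real.log N := by
          have := Real.log_le_log hn'0 h4
          rw [Real.log_pow] at this
          push_cast at this
          exact this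
        have h6 : Real.log (Real.log n') ≤ 2 * Real.log (Real.log N) := by
          have h7 := Real.log_le_log (show 0 < Real.log (n' : ℝ) by linarith) h5
          rw [Real.log_mul (by norm_num) (by linarith)] at h7
          have h8 := Real.log_le_log (by norm_num : (0:ℝ) < 2) hl2
          linarith
        have h9 : ε * (Real.log N / 2) ≤ ε * Real.log (n' : ℝ) :=
          mul_le_mul_of_nonneg_left h3 hε0.le
        linarith) hW1 (by omega)
      (by
        have h5 : 16 * ((t : ℝ) + 1) * (kap / 2 * Real.log N) = ε / 6 * (Real.log N / 2) := by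
          rw [hkap]
          field_simp
        calc 16 * ((t : ℝ) + 1) * Real.log W ≤ 16 * ((t : ℝ) + 1) * (kap / 2 * Real.log N) := by
              gcongr
          _ ≤ _ := by
              rw [h5]
              exact mul_le_mul_of_nonneg_left (hlog1 _ le_rfl) (by positivity))
      (by
        have h5 : (3 * L + 3) / ε ≤ ((a + i * W : ℕ) : ℝ) := by linarith
        rw [div_le_iff₀ hε0] at h5
        linarith)
      (by
        have h5 : 4 * (r : ℝ) * (r + 1) * (r + 2) / δ ≤ ((a + i * W : ℕ) : ℝ) := by linarith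
        rw [div_le_iff₀ hδ] at h5
        linarith)
    exact_mod_cast hgoal
  have hcov := arc_cover (fun n => BadS τ δ ξ n) N a W hW1 _ (by positivity) hwin
  have ht0 : (0 : ℝ) ≤ t := by linarith
  have hdiv : ((N / W : ℕ) : ℝ) ≤ N / W := Nat.cast_div_le
  have hNW : 1 ≤ (N : ℝ) / W := by rw [le_div_iff₀ hW0]; linarith
  have hNx : (N : ℝ) / W ≤ 2 * (N / x) := by
    rw [← mul_div_assoc, div_le_div_iff₀ hW0 (by linarith)]
    nlinarith only [mul_le_mul_of_nonneg_left hxW hN0.le]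
  have hprod : ((N / W + 1 : ℕ) : ℝ) * t ≤ 4 * t * (N / x) := by
    calc ((N / W + 1 : ℕ) : ℝ) * t ≤ (2 * ((N : ℝ) / W)) * t := by
          push_cast
          gcongr
          linarith
      _ ≤ (2 * (2 * (N / x))) * t := by gcongr
      _ = 4 * t * (N / x) := by ring
  have hNx' : (N : ℝ) / x ≤ (N : ℝ) ^ (1 - ε ^ 2 / 5000) := by
    have h5 : (N : ℝ) / x = (N : ℝ) ^ (1 - kap / 2) := by
      rw [Real.rpow_sub hN0, Real.rpow_one]
    rw [h5]
    exact Real.rpow_le_rpow_of_exponent_le hN1 (by linarith)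
  have hsqN : Real.sqrt N ≤ (N : ℝ) ^ (1 - ε ^ 2 / 5000) := by
    rw [Real.sqrt_eq_rpow]
    refine Real.rpow_le_rpow_of_exponent_le hN1 ?_
    nlinarith only [hε0, hε2]
  set Z : ℝ := (N : ℝ) ^ (1 - ε ^ 2 / 5000) with hZ
  have hZ0 : 0 < Z := Real.rpow_pos_of_pos hN0 _
  have hZ1 : 1 ≤ Z := by linarith
  have hfin : 4 * (t : ℝ) * (N / x) ≤ 4 * t * Z := mul_le_mul_of_nonneg_left hNx' (by linarith)
  have e1 : (3 * L + 3) / ε = 3 * (1 / ε * L) + 3 * (1 / ε) := by ring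
  have hRL : 1 / ε * L ≤ R * L := mul_le_mul_of_nonneg_right hεR hL0
  have hRZ : R ≤ R * Z := le_mul_of_one_le_right hR0.le hZ1
  have hZR : Z ≤ R * Z := le_mul_of_one_le_left hZ0.le hR1
  have htR : (t : ℝ) * Z ≤ 25 * (R * Z) := by
    have h5 : (t : ℝ) ≤ 25 * R := by
      have : 25 / ε = 25 * (1 / ε) := by ring
      linarith
    calc (t : ℝ) * Z ≤ (25 * R) * Z := mul_le_mul_of_nonneg_right h5 hZ0.le
      _ = 25 * (R * Z) := by ring
  clear_value Z x
  calc (((Icc 1 N).filter (fun n : ℕ => BadS τ δ ξ n)).card : ℝ)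
      ≤ a + ((N / W + 1 : ℕ) : ℝ) * t := hcov
    _ ≤ (Z + 1) + (3 * (R * L) + 3 * R + 1) + (4 * R + 1) + 4 * t * Z := by
        rw [e1] at ha4
        have h7 : ((N / W + 1 : ℕ) : ℝ) * t ≤ 4 * t * Z := hprod.trans hfin
        have h8 : (a1 : ℝ) ≤ Z + 1 := ha2.trans (by linarith only [hsqN])
        have h9 : (a2 : ℝ) ≤ 3 * (R * L) + 3 * R + 1 := ha4.trans (by linarith only [hRL, hεR])
        have h10 : (a3 : ℝ) ≤ 4 * R + 1 := ha6.trans (by linarith only [hrR])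
        rw [haar]
        linarith only [h7, h8, h9, h10]
    _ ≤ 111 * R * Z + 3 * R * L := by
        have h5 : 111 * R * Z = 111 * (R * Z) := by ring
        have h6 : 3 * R * L = 3 * (R * L) := by ring
        have h7 : 4 * (t : ℝ) * Z = 4 * (t * Z) := by ring
        rw [h5, h6, h7]
        linarith only [hRZ, hZR, htR, hZ1]

open Classical in
/-- **Few `n` with `ξ e ^ n` exponentially close to a finite-dimensional space.** -/
theorem arcS : ∃ A : ℝ, 0 < A ∧ ∀ (r : ℕ) (τ : Fin r → ℝ) (δ : ℝ), 0 < δ → δ ≤ 1 → ∀ N : ℕ, 1 ≤ N →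
    ∀ ξ : ℝ, ξ ≠ 0 → (((Icc 1 N).filter (fun n : ℕ => BadS τ δ ξ n)).card : ℝ) ≤
      A * (((r : ℝ) + 2) ^ 3 / δ) *
        ((N : ℝ) ^ (1 - (δ / (r + 2)) ^ 2 / 5000) + |Real.log (|ξ|)|) := by
  obtain ⟨n1, hPAR⟩ := t_PAR
  refine ⟨(n1 ^ 2 + 8 : ℕ) + Real.exp 1888 + 111, by positivity, ?_⟩
  intro r τ δ hδ hδ1 N hN ξ hξ
  have hr0 : (0 : ℝ) ≤ r := Nat.cast_nonneg r
  obtain ⟨ε, hε⟩ : ∃ ε : ℝ, ε = δ / (r + 2) := ⟨_, rfl⟩
  rw [← hε]
  have hε0 : 0 < ε := by rw [hε]; positivity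
  have hε2 : ε ≤ 1 / 2 := by
    rw [hε, div_le_div_iff₀ (by positivity) (by norm_num)]
    linarith
  have hN1 : (1 : ℝ) ≤ N := by exact_mod_cast hN
  have hN0 : (0 : ℝ) < N := by linarith
  have hcard : (((Icc 1 N).filter (fun n : ℕ => BadS τ δ ξ n)).card : ℝ) ≤ N := by
    have h5 := card_filter_le (Icc 1 N) (fun n : ℕ => BadS τ δ ξ n)
    rw [Nat.card_Icc] at h5
    have h6 : N + 1 - 1 = N := by omega
    rw [h6] at h5
    exact_mod_cast h5
  have hZ1 : 1 ≤ (N : ℝ) ^ (1 - ε ^ 2 / 5000) := Real.one_le_rpow hN1 (by nlinarith)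
  have hZN : (N : ℝ) ^ (ε ^ 2 / 5000) * (N : ℝ) ^ (1 - ε ^ 2 / 5000) = N := by
    rw [← Real.rpow_add hN0]
    simp
  set Z : ℝ := (N : ℝ) ^ (1 - ε ^ 2 / 5000) with hZ
  set L : ℝ := |Real.log (|ξ|)| with hLd
  have hL0 : 0 ≤ L := abs_nonneg _
  set A : ℝ := (n1 ^ 2 + 8 : ℕ) + Real.exp 1888 + 111 with hA
  have hA0 : 0 < A := by positivity
  have hexp : 0 < Real.exp 1888 := Real.exp_pos _
  have hn0 : (0 : ℝ) ≤ ((n1 ^ 2 + 8 : ℕ) : ℝ) := Nat.cast_nonneg _
  set R : ℝ := ((r : ℝ) + 2) ^ 3 / δ with hRd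
  have hR1 : 1 ≤ R := by
    rw [hRd, le_div_iff₀ hδ]
    have : (1 : ℝ) ≤ (r + 2) ^ 3 := one_le_pow₀ (by linarith)
    linarith
  have hR0 : 0 < R := by linarith
  have hbig : ∀ y : ℝ, 0 ≤ y → y ≤ A * Z → y ≤ A * R * (Z + L) := by
    intro y _ hy
    refine hy.trans ?_
    refine mul_le_mul ?_ (by linarith) (by linarith) (by positivity)
    nlinarith
  by_cases hsmall : N < n1 ^ 2 + 8
  · refine hcard.trans (hbig _ hN0.le ?_)
    have h1 : (N : ℝ) ≤ ((n1 ^ 2 + 8 : ℕ) : ℝ) := by exact_mod_cast hsmall.le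
    nlinarith
  · by_cases hl : ε * Real.log N < 1536 * Real.log (Real.log N)
    · refine hcard.trans (hbig _ hN0.le ?_)
      have h1 := log_smallS ε N hε0 (by omega) hl
      rw [← hZN]
      refine mul_le_mul_of_nonneg_right (h1.trans ?_) (by linarith)
      linarith
    · push Not at hl
      have h5 := arcS_big (t_FORM t_INT t_SIZ t_PF t_EXP t_PRO) t_VB n1 hPAR τ δ ε ξ N hδ hδ1
        hε (by omega) (by omega) hξ hl
      refine h5.trans ?_
      rw [← hRd, ← hZ, ← hLd]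
      have h6 : 111 * R ≤ A * R := mul_le_mul_of_nonneg_right (by linarith) hR0.le
      have h7 : 3 * R ≤ A * R := mul_le_mul_of_nonneg_right (by linarith) hR0.le
      rw [mul_add]
      exact add_le_add (mul_le_mul_of_nonneg_right h6 (by linarith))
        (mul_le_mul_of_nonneg_right h7 hL0)

end Pool.Agent.TH373.EN
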