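import Pool.Agent.TH373.EN.Contra

/-!
# Few `n` with `ξ e ^ n` exponentially close to a finite-dimensional space: one window
-/

set_option autoImplicit false

namespace Pool.Agent.TH373.EN

open Finset Pool.Agent.H771R3.EN

/-- contradiction, homogeneous version -/
theorem con_hom (h : S_FORM) (T : Finset ℕ) (n m W : ℕ) (ψ μ D : ℝ) (k : ℕ → ℕ) (b : ℕ → ℤ)
    (hT : T.Nonempty) (hm : 1 ≤ m) (hW : ∀ j ∈ T, j ≤ W) (hμ : 0 < μ)
    (hk : ∀ j ∈ T, 1 ≤ k j)
    (hnear : ∀ j ∈ T, |k j * (μ * Real.exp ((n : ℝ) + j)) - b j| ≤ ψ)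
    (hD : ∏ j ∈ T, (k j : ℝ) ≤ D)
    (h1 : 2 * (D * μ * Real.exp ((n : ℝ) + 2 * W)) * (V T : ℝ) ^ (2 * m) * ((m - 1).factorial : ℝ) ≤
      ((m * T.card - 1).factorial : ℝ))
    (h2 : 6 * (T.card : ℝ) * 2 ^ (m * T.card) * ((m * T.card - 1).factorial : ℝ) * ψ <
      μ * Real.exp n) : False := by
  obtain ⟨c, g, hsum, hg1, hg2, hc⟩ := h T m W hT hm hW
  have hVpos : (0 : ℝ) < (V T : ℝ) := by exact_mod_cast con_V T
  set P : ℝ := (V T : ℝ) ^ (2 * m) * ((m - 1).factorial : ℝ) with hP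
  have hPpos : 0 < P := by
    have : (0 : ℝ) < ((m - 1).factorial : ℝ) := by exact_mod_cast Nat.factorial_pos _
    positivity
  set F : ℝ := ((m * T.card - 1).factorial : ℝ) with hF
  have hFpos : 0 < F := by
    have : (0 : ℝ) < ((m * T.card - 1).factorial : ℝ) := by exact_mod_cast Nat.factorial_pos _
    exact this
  have hψ : 0 ≤ ψ := by
    obtain ⟨j, hj⟩ := hT
    exact (abs_nonneg _).trans (hnear j hj)
  -- the common denominator
  set D0 : ℕ := ∏ j ∈ T, k j with hD0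
  have hD0pos : 0 < D0 := Finset.prod_pos fun j hj => hk j hj
  have hD0r : (0 : ℝ) < D0 := by exact_mod_cast hD0pos
  have hD0D : (D0 : ℝ) ≤ D := by
    rw [hD0]
    push_cast
    exact hD
  let q : ℕ → ℕ := fun j => ∏ i ∈ T.erase j, k i
  have hq : ∀ j ∈ T, (k j : ℝ) * q j = D0 := by
    intro j hj
    have := Finset.mul_prod_erase T k hj
    rw [hD0, ← this, Nat.cast_mul]
  have hq' : ∀ j ∈ T, (q j : ℝ) ≤ D0 := by
    intro j hj
    have h3 := hq j hj
    have h4 : (1 : ℝ) ≤ k j := by exact_mod_cast hk j hj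
    have h5 : (0 : ℝ) ≤ q j := Nat.cast_nonneg _
    nlinarith
  have hY : ∑ j ∈ T, (c j : ℝ) * (D0 * (μ * Real.exp ((n : ℝ) + j))) =
      D0 * μ * Real.exp n * (P * g) := by
    rw [← hsum, Finset.mul_sum]
    refine Finset.sum_congr rfl fun j _ => ?_
    rw [Real.exp_add]
    ring
  have herr : |∑ j ∈ T, (c j : ℝ) * (D0 * (μ * Real.exp ((n : ℝ) + j))) -
      ((∑ j ∈ T, c j * (q j * b j) : ℤ) : ℝ)| ≤
      D0 * (2 * ψ * (3 * (T.card : ℝ) * P * 2 ^ (m * T.card))) := by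
    have e1 : ∑ j ∈ T, (c j : ℝ) * (D0 * (μ * Real.exp ((n : ℝ) + j))) -
      ((∑ j ∈ T, c j * (q j * b j) : ℤ) : ℝ) =
      ∑ j ∈ T, (c j : ℝ) * (q j * (k j * (μ * Real.exp ((n : ℝ) + j)) - b j)) := by
      push_cast
      rw [← Finset.sum_sub_distrib]
      refine Finset.sum_congr rfl fun j hj => ?_
      rw [← hq j hj]
      ring
    rw [e1]
    refine (Finset.abs_sum_le_sum_abs _ _).trans ?_
    have e2 : ∑ j ∈ T, |(c j : ℝ) * (q j * (k j * (μ * Real.exp ((n : ℝ) + j)) - b j))| ≤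
        ∑ j ∈ T, (D0 * (2 * ψ)) * |(c j : ℝ)| := by
      refine Finset.sum_le_sum fun j hj => ?_
      rw [abs_mul, mul_comm, abs_mul, abs_of_nonneg (Nat.cast_nonneg (q j))]
      refine mul_le_mul_of_nonneg_right ?_ (abs_nonneg _)
      refine mul_le_mul (hq' j hj) ((hnear j hj).trans (by linarith)) (abs_nonneg _) hD0r.le
    refine e2.trans ?_
    rw [← Finset.mul_sum, mul_assoc]
    refine mul_le_mul_of_nonneg_left ?_ hD0r.le
    refine mul_le_mul_of_nonneg_left (hc.trans (le_of_eq ?_)) (by positivity)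
    rw [hP]; ring
  set Y : ℝ := D0 * μ * Real.exp n * (P * g) with hYdef
  rw [hY] at herr
  have hgl : 1 ≤ g * F := by
    have := (div_le_iff₀ hFpos).mp hg1
    linarith
  have hgu : g * F ≤ Real.exp W := by
    have := (le_div_iff₀ hFpos).mp hg2
    linarith
  have hen : 0 < Real.exp (n : ℝ) := Real.exp_pos _
  have hew : 1 ≤ Real.exp (W : ℝ) := Real.one_le_exp (Nat.cast_nonneg _)
  -- lower bound
  have hlow : D0 * (μ * Real.exp n * P) ≤ Y * F := by
    have e3 : Y * F = (g * F) * (D0 * (μ * Real.exp n * P)) := by rw [hYdef]; ring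
    rw [e3]
    have : 0 < D0 * (μ * Real.exp (n : ℝ) * P) := by positivity
    nlinarith
  have hup : 2 * (Y * F) ≤ F := by
    have e3 : Y * F = (g * F) * (D0 * μ * Real.exp n * P) := by rw [hYdef]; ring
    have e4 : g * F ≤ Real.exp W * Real.exp W := hgu.trans (by nlinarith)
    have e5 : Real.exp ((n : ℝ) + 2 * W) = Real.exp n * (Real.exp W * Real.exp W) := by
      rw [← Real.exp_add, ← Real.exp_add]; congr 1; ring
    have e6 : 2 * (D * μ * (Real.exp n * (Real.exp W * Real.exp W))) * P ≤ F := by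
      rw [e5] at h1
      calc _ = 2 * (D * μ * (Real.exp n * (Real.exp W * Real.exp W))) * (V T : ℝ) ^ (2 * m) *
            ((m - 1).factorial : ℝ) := by rw [hP]; ring
        _ ≤ _ := h1
    have e7 : (g * F) * (D0 * μ * Real.exp n * P) ≤
        (Real.exp W * Real.exp W) * (D * μ * Real.exp n * P) := by
      refine mul_le_mul e4 ?_ (by positivity) (by positivity)
      have : 0 ≤ μ * Real.exp n * P := by positivity
      nlinarith
    rw [e3]
    linarith [e6, e7]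
  have herr2 : D0 * (2 * ψ * (3 * (T.card : ℝ) * P * 2 ^ (m * T.card))) * F <
      D0 * (μ * Real.exp n * P) := by
    have e8 : D0 * (2 * ψ * (3 * (T.card : ℝ) * P * 2 ^ (m * T.card))) * F =
      D0 * ((6 * (T.card : ℝ) * 2 ^ (m * T.card) * F * ψ) * P) := by ring
    rw [e8]
    exact mul_lt_mul_of_pos_left (mul_lt_mul_of_pos_right h2 hPpos) hD0r
  set err : ℝ := D0 * (2 * ψ * (3 * (T.card : ℝ) * P * 2 ^ (m * T.card))) with herrdef
  have hYerr : err < Y := by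
    have : err * F < Y * F := lt_of_lt_of_le herr2 hlow
    exact lt_of_mul_lt_mul_right this hFpos.le
  have hY2 : 2 * Y ≤ 1 := by
    have : 2 * Y * F ≤ 1 * F := by linarith
    exact le_of_mul_le_mul_right this hFpos
  obtain ⟨l1, l2⟩ := abs_le.mp herr
  have hB1 : (0 : ℝ) < ((∑ j ∈ T, c j * (q j * b j) : ℤ) : ℝ) := by linarith
  have hB2 : ((∑ j ∈ T, c j * (q j * b j) : ℤ) : ℝ) < 1 := by linarith
  have hB1' : 0 < ∑ j ∈ T, c j * (q j * b j) := by exact_mod_cast hB1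
  have hB2' : ∑ j ∈ T, c j * (q j * b j) < 1 := by exact_mod_cast hB2
  omega

/-- Simultaneous Dirichlet approximation. -/
theorem dirichlet {r : ℕ} (u : Fin r → ℝ) (N : ℕ) (hN : 0 < N) :
    ∃ m : ℕ, 1 ≤ m ∧ m ≤ N ^ r ∧ ∃ z : Fin r → ℤ, ∀ c, |m * u c - z c| < 1 / N := by
  classical
  have hN' : (0 : ℝ) < N := by exact_mod_cast hN
  let f : Fin (N ^ r + 1) → (Fin r → Fin N) := fun j c =>
    ⟨⌊(N : ℝ) * Int.fract ((j : ℕ) * u c)⌋₊, by
      rw [Nat.floor_lt (by have := Int.fract_nonneg ((j : ℕ) * u c); positivity)]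
      have := Int.fract_lt_one (((j : ℕ) : ℝ) * u c)
      nlinarith⟩
  have hcard : Fintype.card (Fin r → Fin N) < Fintype.card (Fin (N ^ r + 1)) := by
    simp
  obtain ⟨i, j, hij, hf⟩ := Fintype.exists_ne_map_eq_of_card_lt f hcard
  wlog hlt : i < j generalizing i j
  · exact this j i hij.symm hf.symm (lt_of_le_of_ne (not_lt.mp hlt) hij.symm)
  refine ⟨(j : ℕ) - i, ?_, ?_, fun c => ⌊((j : ℕ) : ℝ) * u c⌋ - ⌊((i : ℕ) : ℝ) * u c⌋, ?_⟩
  · have : (i : ℕ) < j := hlt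
    omega
  · have := j.2
    omega
  · intro c
    have h1 : ⌊(N : ℝ) * Int.fract ((i : ℕ) * u c)⌋₊ = ⌊(N : ℝ) * Int.fract ((j : ℕ) * u c)⌋₊ := by
      have := congrFun hf c
      simpa [f] using this
    have hi0 : 0 ≤ (N : ℝ) * Int.fract (((i : ℕ) : ℝ) * u c) := by
      have := Int.fract_nonneg (((i : ℕ) : ℝ) * u c); positivity
    have hj0 : 0 ≤ (N : ℝ) * Int.fract (((j : ℕ) : ℝ) * u c) := by
      have := Int.fract_nonneg (((j : ℕ) : ℝ) * u c); positivity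
    have h2 := Nat.floor_le hi0
    have h3 := Nat.lt_floor_add_one ((N : ℝ) * Int.fract (((i : ℕ) : ℝ) * u c))
    have h4 := Nat.floor_le hj0
    have h5 := Nat.lt_floor_add_one ((N : ℝ) * Int.fract (((j : ℕ) : ℝ) * u c))
    rw [h1] at h2 h3
    have h6 : |Int.fract (((j : ℕ) : ℝ) * u c) - Int.fract (((i : ℕ) : ℝ) * u c)| < 1 / N := by
      have h9 : |(N : ℝ) * (Int.fract (((j : ℕ) : ℝ) * u c) -
          Int.fract (((i : ℕ) : ℝ) * u c))| < 1 := by
        rw [abs_lt]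
        constructor <;> nlinarith
      rw [abs_mul, abs_of_pos hN'] at h9
      rw [lt_div_iff₀ hN', mul_comm]
      exact h9
    have h7 : (((j : ℕ) - (i : ℕ) : ℕ) : ℝ) = (j : ℕ) - (i : ℕ) := by
      rw [Nat.cast_sub (le_of_lt (show (i : ℕ) < j from hlt))]
    have h8 : (((j : ℕ) - (i : ℕ) : ℕ) : ℝ) * u c -
        ((⌊((j : ℕ) : ℝ) * u c⌋ - ⌊((i : ℕ) : ℝ) * u c⌋ : ℤ) : ℝ) =
        Int.fract (((j : ℕ) : ℝ) * u c) - Int.fract (((i : ℕ) : ℝ) * u c) := by
      rw [h7]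
      push_cast
      unfold Int.fract
      ring
    rw [h8]
    exact h6

/-- `ξ e ^ n` is exponentially close to a combination of `1, τ i` with small coefficients -/
def BadS {r : ℕ} (τ : Fin r → ℝ) (δ ξ : ℝ) (n : ℕ) : Prop := ∃ (a b : ℤ) (c : Fin r → ℤ), b ≠ 0 ∧
  |(b : ℝ)| ≤ Real.exp ((δ / (r + 2)) ^ 2 / 5000 * n) ∧
  (∀ i, |(c i : ℝ)| ≤ Real.exp ((δ / (r + 2)) ^ 2 / 5000 * n)) ∧
  |a + b * (ξ * Real.exp n) + ∑ i, c i * τ i| < Real.exp (-(δ * n))

/-- one element, after the simultaneous approximation -/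
theorem badS_elem {r : ℕ} {τ : Fin r → ℝ} {δ ξ : ℝ} (hδ : 0 < δ) (hδ1 : δ ≤ 1) (hξ : ξ ≠ 0)
    {n j W : ℕ}
    (hWn : W ≤ n) (hj : j < W) (hr : 4 * (r : ℝ) * (r + 1) * (r + 2) ≤ δ * n)
    (K q : ℕ) (hK : 1 ≤ K) (hq : 1 ≤ q) (hqK : q ≤ K ^ r)
    (hK1 : (K : ℝ) ≤ Real.exp (δ * n / (r + 1))) (hK2 : Real.exp (δ * n / (r + 1)) ≤ 2 * K)
    (p : Fin r → ℤ) (hp : ∀ i, |q * τ i - p i| < 1 / K) (h : BadS τ δ ξ (n + j)) :
    ∃ (B : ℤ) (k : ℕ), 1 ≤ k ∧ (k : ℝ) ≤ Real.exp ((δ / (r + 2)) ^ 2 / 2500 * n) ∧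
      |k * (q * |ξ| * Real.exp ((n : ℝ) + j)) - B| ≤ Real.exp (-(δ / (r + 2) * n)) := by
  obtain ⟨a, b, c, hb0, hb1, hc, h⟩ := h
  have hn0 : (0 : ℝ) ≤ n := Nat.cast_nonneg n
  have hr0 : (0 : ℝ) ≤ r := Nat.cast_nonneg r
  have e1 : ((n + j : ℕ) : ℝ) ≤ 2 * n := by
    have : n + j ≤ 2 * n := by omega
    exact_mod_cast this
  have e2 : Real.exp ((δ / (r + 2)) ^ 2 / 5000 * ((n + j : ℕ) : ℝ)) ≤
      Real.exp ((δ / (r + 2)) ^ 2 / 2500 * n) := by
    apply Real.exp_le_exp.2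
    have e3 : 0 ≤ (δ / (r + 2)) ^ 2 / 5000 := by positivity
    have e4 := mul_le_mul_of_nonneg_left e1 e3
    have e5 : (δ / (r + 2)) ^ 2 / 5000 * (2 * (n : ℝ)) = (δ / (r + 2)) ^ 2 / 2500 * n := by ring
    linarith
  have hqr : (1 : ℝ) ≤ q := by exact_mod_cast hq
  have hKr : (1 : ℝ) ≤ K := by exact_mod_cast hK
  -- the error
  have herr : q * Real.exp (-(δ * ((n + j : ℕ) : ℝ))) + ∑ i, |(c i : ℝ)| * (1 / K) ≤
      Real.exp (-(δ / (r + 2) * n)) := by
    have f1 : (q : ℝ) ≤ Real.exp (δ * n / (r + 1) * r) := by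
      calc (q : ℝ) ≤ (K : ℝ) ^ r := by exact_mod_cast hqK
        _ ≤ Real.exp (δ * n / (r + 1)) ^ r := pow_le_pow_left₀ (by positivity) hK1 r
        _ = Real.exp (δ * n / (r + 1) * r) := by rw [← Real.exp_nat_mul]; congr 1; ring
    have f2 : Real.exp (-(δ * ((n + j : ℕ) : ℝ))) ≤ Real.exp (-(δ * n)) := by
      apply Real.exp_le_exp.2
      have : (n : ℝ) ≤ ((n + j : ℕ) : ℝ) := by exact_mod_cast Nat.le_add_right n j
      nlinarith
    have f3 : q * Real.exp (-(δ * ((n + j : ℕ) : ℝ))) ≤ Real.exp (-(δ * n / (r + 1))) := by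
      calc q * Real.exp (-(δ * ((n + j : ℕ) : ℝ)))
          ≤ Real.exp (δ * n / (r + 1) * r) * Real.exp (-(δ * n)) :=
            mul_le_mul f1 f2 (Real.exp_pos _).le (Real.exp_pos _).le
        _ = Real.exp (-(δ * n / (r + 1))) := by
            rw [← Real.exp_add]
            congr 1
            field_simp
            ring
    have f4 : 1 / (K : ℝ) ≤ 2 * Real.exp (-(δ * n / (r + 1))) := by
      rw [Real.exp_neg, ← div_eq_mul_inv, div_le_div_iff₀ (by positivity) (Real.exp_pos _), one_mul]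
      exact hK2
    have f5 : ∑ i, |(c i : ℝ)| * (1 / K) ≤ r * (Real.exp ((δ / (r + 2)) ^ 2 / 2500 * n) *
        (2 * Real.exp (-(δ * n / (r + 1))))) := by
      calc ∑ i, |(c i : ℝ)| * (1 / K) ≤ ∑ _i : Fin r, Real.exp ((δ / (r + 2)) ^ 2 / 2500 * n) *
            (2 * Real.exp (-(δ * n / (r + 1)))) := by
            refine Finset.sum_le_sum fun i _ => ?_
            exact mul_le_mul ((hc i).trans e2) f4 (by positivity) (Real.exp_pos _).le
        _ = _ := by rw [Finset.sum_const, Finset.card_univ, Fintype.card_fin, nsmul_eq_mul]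
    have f6 : 1 ≤ Real.exp ((δ / (r + 2)) ^ 2 / 2500 * n) := Real.one_le_exp (by positivity)
    have f7 : (2 * (r : ℝ) + 1) ≤ Real.exp (2 * r) := by
      have := Real.add_one_le_exp (2 * (r : ℝ))
      linarith
    have f8 : 0 < Real.exp (-(δ * n / (r + 1))) := Real.exp_pos _
    calc q * Real.exp (-(δ * ((n + j : ℕ) : ℝ))) + ∑ i, |(c i : ℝ)| * (1 / K)
        ≤ Real.exp (-(δ * n / (r + 1))) + r * (Real.exp ((δ / (r + 2)) ^ 2 / 2500 * n) *
        (2 * Real.exp (-(δ * n / (r + 1))))) := add_le_add f3 f5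
      _ ≤ (2 * r + 1) * (Real.exp ((δ / (r + 2)) ^ 2 / 2500 * n) *
          Real.exp (-(δ * n / (r + 1)))) := by
          have : Real.exp (-(δ * n / (r + 1))) ≤ Real.exp ((δ / (r + 2)) ^ 2 / 2500 * n) *
            Real.exp (-(δ * n / (r + 1))) := le_mul_of_one_le_left f8.le f6
          linarith
      _ ≤ Real.exp (2 * r) * (Real.exp ((δ / (r + 2)) ^ 2 / 2500 * n) *
          Real.exp (-(δ * n / (r + 1)))) := mul_le_mul_of_nonneg_right f7 (by positivity)
      _ = Real.exp (2 * r + (δ / (r + 2)) ^ 2 / 2500 * n - δ * n / (r + 1)) := by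
          rw [← Real.exp_add, ← Real.exp_add]
          congr 1
          ring
      _ ≤ Real.exp (-(δ / (r + 2) * n)) := by
          apply Real.exp_le_exp.2
          have g1 : δ * n / (r + 1) - δ / (r + 2) * n = δ * n / ((r + 1) * (r + 2)) := by
            field_simp
            ring
          have g2 : 2 * (r : ℝ) ≤ δ * n / ((r + 1) * (r + 2)) / 2 := by
            rw [le_div_iff₀ (by norm_num), le_div_iff₀ (by positivity)]
            linarith
          have g3 : (δ / (r + 2)) ^ 2 / 2500 * n ≤ δ * n / ((r + 1) * (r + 2)) / 2 := by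
            have g4 : (δ / (r + 2)) ^ 2 / 2500 * (n : ℝ) =
                (δ * n) * (δ / ((r + 2) * (r + 2) * 2500)) := by
              field_simp
            have g5 : δ * n / ((r + 1) * (r + 2)) / 2 = (δ * n) * (1 / ((r + 1) * (r + 2) * 2)) := by
              field_simp
            rw [g4, g5]
            refine mul_le_mul_of_nonneg_left ?_ (by positivity)
            rw [div_le_div_iff₀ (by positivity) (by positivity)]
            have g6 : ((r : ℝ) + 1) * (r + 2) ≤ (r + 2) * (r + 2) := by nlinarith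
            have g7 : 0 ≤ ((r : ℝ) + 1) * (r + 2) := by positivity
            nlinarith
          linarith
  -- the signs
  set s : ℤ := Int.sign b with hs
  obtain ⟨σ, hσ, hσξ⟩ : ∃ σ : ℤ, (σ = 1 ∨ σ = -1) ∧ |ξ| = σ * ξ := by
    rcases abs_choice ξ with h | h
    · exact ⟨1, Or.inl rfl, by rw [h]; simp⟩
    · exact ⟨-1, Or.inr rfl, by rw [h]; simp⟩
  have hs1 : s = 1 ∨ s = -1 := by
    rcases lt_or_gt_of_ne hb0 with h | h
    · right; exact Int.sign_eq_neg_one_of_neg h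
    · left; exact Int.sign_eq_one_of_pos h
  have hbn : ((b.natAbs : ℕ) : ℝ) = s * b := by
    have : (b.natAbs : ℤ) = s * b := by
      rw [hs]
      exact (Int.sign_mul_self_eq_natAbs b).symm
    calc ((b.natAbs : ℕ) : ℝ) = ((b.natAbs : ℤ) : ℝ) := (Int.cast_natCast _).symm
      _ = ((s * b : ℤ) : ℝ) := by rw [this]
      _ = s * b := Int.cast_mul _ _
  refine ⟨-(s * σ) * (q * a + ∑ i, c i * p i), b.natAbs, Int.natAbs_pos.2 hb0, ?_, ?_⟩
  · rw [Nat.cast_natAbs, Int.cast_abs]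
    exact hb1.trans e2
  · have e3 : ((n + j : ℕ) : ℝ) = (n : ℝ) + j := by push_cast; ring
    have e4 : (b.natAbs : ℝ) * (q * |ξ| * Real.exp ((n : ℝ) + j)) -
        ((-(s * σ) * (q * a + ∑ i, c i * p i) : ℤ) : ℝ) =
        (s * σ : ℤ) * (q * (a + b * (ξ * Real.exp ((n + j : ℕ) : ℝ)) + ∑ i, c i * τ i) -
          ∑ i, (c i : ℝ) * (q * τ i - p i)) := by
      rw [hbn, hσξ, e3]
      push_cast
      have e5 : ∑ i, (c i : ℝ) * (q * τ i - p i) = q * ∑ i, (c i : ℝ) * τ i -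
          ∑ i, (c i : ℝ) * p i := by
        rw [Finset.mul_sum, ← Finset.sum_sub_distrib]
        refine Finset.sum_congr rfl fun i _ => ?_
        ring
      rw [e5]
      ring
    rw [e4, abs_mul]
    have e6 : |((s * σ : ℤ) : ℝ)| = 1 := by
      rcases hs1 with h1 | h1 <;> rcases hσ with h2 | h2 <;> rw [h1, h2] <;> norm_num
    rw [e6, one_mul]
    refine (abs_sub _ _).trans (le_trans (add_le_add ?_ ?_) herr)
    · rw [abs_mul, abs_of_nonneg (Nat.cast_nonneg q)]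
      exact mul_le_mul_of_nonneg_left h.le (Nat.cast_nonneg q)
    · refine (Finset.abs_sum_le_sum_abs _ _).trans (Finset.sum_le_sum fun i _ => ?_)
      rw [abs_mul]
      exact mul_le_mul_of_nonneg_left (hp i).le (abs_nonneg _)

end Pool.Agent.TH373.EN
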