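import Pool.Agent.TH373.EN.Arc
import Pool.Agent.H771R3.EN.WEYL

/-!
# Weighted Weyl sums over arithmetic progressions of real frequencies
-/

set_option autoImplicit false

namespace Pool.Agent.TH373.EN

open Finset Pool.Agent.H771R3.EN

/-- expansion of the mean square with weights -/
theorem weyl_expand_weights (x : ℕ → ℝ) (z : ℕ → ℂ) (N H : ℕ) (hz : ∀ n, ‖z n‖ ≤ 1) :
    ∑ h ∈ Icc 1 H, ‖∑ n ∈ Icc 1 N,
      z n * Complex.exp (2 * Real.pi * Complex.I * (h : ℂ) * (x n : ℂ))‖ ^ 2 ≤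
    ∑ m ∈ Icc 1 N, ∑ n ∈ Icc 1 N,
      ‖∑ h ∈ Icc 1 H, Complex.exp (2 * Real.pi * Complex.I * ((x n - x m : ℝ) : ℂ)) ^ h‖ := by
  have h1 : ∀ h : ℕ, ((‖∑ n ∈ Icc 1 N,
      z n * Complex.exp (2 * Real.pi * Complex.I * (h : ℂ) * (x n : ℂ))‖ ^ 2 : ℝ) : ℂ) =
      ∑ m ∈ Icc 1 N, ∑ n ∈ Icc 1 N, (starRingEnd ℂ (z m) * z n) *
        Complex.exp (2 * Real.pi * Complex.I * ((x n - x m : ℝ) : ℂ)) ^ h := by
    intro h
    rw [Complex.ofReal_pow, ← Complex.conj_mul', map_sum, Finset.sum_mul_sum]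
    refine sum_congr rfl fun m _ => sum_congr rfl fun n _ => ?_
    rw [map_mul, mul_mul_mul_comm, ← Complex.exp_conj, ← Complex.exp_add, ← Complex.exp_nat_mul]
    congr 2
    simp only [map_mul, Complex.conj_ofReal, Complex.conj_I, map_natCast, map_ofNat]
    push_cast
    ring
  have h2 : ((∑ h ∈ Icc 1 H, ‖∑ n ∈ Icc 1 N,
      z n * Complex.exp (2 * Real.pi * Complex.I * (h : ℂ) * (x n : ℂ))‖ ^ 2 : ℝ) : ℂ) =
      ∑ m ∈ Icc 1 N, ∑ n ∈ Icc 1 N, (starRingEnd ℂ (z m) * z n) * ∑ h ∈ Icc 1 H,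
        Complex.exp (2 * Real.pi * Complex.I * ((x n - x m : ℝ) : ℂ)) ^ h := by
    rw [Complex.ofReal_sum, sum_congr rfl fun h _ => h1 h, sum_comm]
    refine sum_congr rfl fun m _ => ?_
    rw [sum_comm]
    exact sum_congr rfl fun n _ => (Finset.mul_sum _ _ _).symm
  have h3 := congrArg norm h2
  rw [Complex.norm_real, Real.norm_of_nonneg (sum_nonneg fun h _ => by positivity)] at h3
  rw [h3]
  refine (norm_sum_le _ _).trans (sum_le_sum fun m _ => ?_)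
  refine (norm_sum_le _ _).trans (sum_le_sum fun n _ => ?_)
  rw [norm_mul, norm_mul, RCLike.norm_conj]
  have h4 : ‖z m‖ * ‖z n‖ ≤ 1 := mul_le_one₀ (hz m) (norm_nonneg _) (hz n)
  exact mul_le_of_le_one_left (norm_nonneg _) h4

open Classical in
theorem weyl : ∃ A : ℝ, 0 < A ∧ ∀ δ : ℝ, 0 < δ → δ ≤ 1 → ∀ N : ℕ, 1 ≤ N → ∀ β : ℝ, β ≠ 0 →
    ∀ z : ℕ → ℂ, (∀ n, ‖z n‖ ≤ 1) → ∀ H : ℕ, Real.exp (δ * N) ≤ H →
    ∑ h ∈ Icc 1 H, ‖∑ n ∈ Icc 1 N,
      z n * Complex.exp (2 * Real.pi * Complex.I * (h : ℂ) * ((β * Real.exp (n : ℝ) : ℝ) : ℂ))‖ ^ 2 ≤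
    A / δ * H * ((N : ℝ) ^ (2 - δ ^ 2 / 5120) + N * |Real.log (|β|)|) := by
  obtain ⟨A, hA, hArc⟩ := arc
  refine ⟨2 * A + 1, by linarith, ?_⟩
  intro δ hδ hδ1 N hN β hβ z hz H hH
  have hN1 : (1:ℝ) ≤ N := by exact_mod_cast hN
  have hN0 : (0:ℝ) < N := by linarith
  have hH0 : (0:ℝ) < H := lt_of_lt_of_le (Real.exp_pos _) hH
  refine (weyl_expand_weights (fun n => β * Real.exp (n : ℝ)) z N H hz).trans ?_
  set ψ : ℝ := Real.exp (-(δ * N / 2)) with hψ
  have hψ0 : 0 < ψ := Real.exp_pos _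
  set L : ℝ := |Real.log (|β|)| with hL
  have hL0 : 0 ≤ L := abs_nonneg _
  -- one row
  have hrow : ∀ m ∈ Icc 1 N, ∑ n ∈ Icc 1 N, ‖∑ h ∈ Icc 1 H, Complex.exp (2 * Real.pi * Complex.I *
      ((β * Real.exp (n : ℝ) - β * Real.exp (m : ℝ) : ℝ) : ℂ)) ^ h‖ ≤
      (2 * A / δ * ((N : ℝ) ^ (1 - δ ^ 2 / 5120) + L)) * H + N * (1 / (2 * ψ)) := by
    intro m _
    set B := (Icc 1 N).filter (fun n : ℕ => Near (β * Real.exp (m : ℝ)) ψ (β * Real.exp (n : ℝ)))
      with hB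
    have hBcard : (B.card : ℝ) ≤ 2 * A / δ * ((N : ℝ) ^ (1 - δ ^ 2 / 5120) + L) := by
      have h1 := hArc (δ / 2) (by linarith) (by linarith) N hN β (β * Real.exp (m : ℝ)) hβ
      have h2 : B ⊆ (Icc 1 N).filter (fun n : ℕ => Bad (δ / 2) β (β * Real.exp (m : ℝ)) n) := by
        intro n hn
        rw [hB, mem_filter] at hn
        rw [mem_filter]
        obtain ⟨hn1, b, hb⟩ := hn
        refine ⟨hn1, b, 1, le_rfl, ?_, ?_⟩
        · rw [Nat.cast_one]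
          exact Real.one_le_exp (by positivity)
        · rw [Nat.cast_one, div_one]
          refine lt_of_lt_of_le hb ?_
          rw [hψ]
          apply Real.exp_le_exp.2
          have hnN : (n : ℝ) ≤ N := by exact_mod_cast (mem_Icc.1 hn1).2
          nlinarith
      have h3 : (B.card : ℝ) ≤ (((Icc 1 N).filter
          (fun n : ℕ => Bad (δ / 2) β (β * Real.exp (m : ℝ)) n)).card : ℝ) := by
        exact_mod_cast card_le_card h2
      refine h3.trans (h1.trans (le_of_eq ?_))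
      have e1 : A / (δ / 2) = 2 * A / δ := by field_simp
      have e2 : (δ / 2) ^ 2 / 1280 = δ ^ 2 / 5120 := by ring
      rw [e1, e2]
    have hterm : ∀ n ∈ Icc 1 N, ‖∑ h ∈ Icc 1 H, Complex.exp (2 * Real.pi * Complex.I *
        ((β * Real.exp (n : ℝ) - β * Real.exp (m : ℝ) : ℝ) : ℂ)) ^ h‖ ≤
        (if n ∈ B then (H : ℝ) else 0) + 1 / (2 * ψ) := by
      intro n hn
      by_cases hnB : n ∈ B
      · rw [if_pos hnB]
        have h1 := weyl_sum_triv (β * Real.exp (n : ℝ) - β * Real.exp (m : ℝ)) H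
        have h2 : 0 ≤ 1 / (2 * ψ) := by positivity
        linarith
      · rw [if_neg hnB, zero_add]
        refine weyl_sum_good _ ψ H hψ0 fun b => ?_
        by_contra hcon
        push Not at hcon
        apply hnB
        rw [hB, mem_filter]
        exact ⟨hn, b, hcon⟩
    refine (sum_le_sum hterm).trans ?_
    rw [sum_add_distrib, sum_const, Nat.card_Icc, Nat.add_sub_cancel, nsmul_eq_mul]
    refine add_le_add_left ?_ _
    rw [← sum_filter]
    have h1 : (Icc 1 N).filter (fun n => n ∈ B) = B := by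
      ext n
      simp only [mem_filter, hB]
      tauto
    rw [h1, sum_const, nsmul_eq_mul]
    exact mul_le_mul_of_nonneg_right hBcard hH0.le
  refine (sum_le_sum hrow).trans ?_
  rw [sum_const, Nat.card_Icc, Nat.add_sub_cancel, nsmul_eq_mul]
  -- the good terms
  have hgood : 1 / (2 * ψ) ≤ H / (δ * N) := by
    have e1 : 1 / ψ = Real.exp (δ * N / 2) := by
      rw [hψ, Real.exp_neg, one_div, inv_inv]
    have e2 : δ * N / 2 ≤ Real.exp (δ * N / 2) := by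
      have := Real.add_one_le_exp (δ * N / 2)
      linarith
    have e3 : Real.exp (δ * N / 2) * Real.exp (δ * N / 2) ≤ H := by
      rw [← Real.exp_add]
      have : δ * N / 2 + δ * N / 2 = δ * N := by ring
      rw [this]
      exact hH
    have e4 : 0 < δ * N := by positivity
    rw [le_div_iff₀ e4]
    have e5 : 1 / (2 * ψ) = Real.exp (δ * N / 2) / 2 := by
      rw [← e1]
      field_simp
    rw [e5]
    have e6 : Real.exp (δ * N / 2) / 2 * (δ * N) = Real.exp (δ * N / 2) * (δ * N / 2) := by ring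
    rw [e6]
    exact (mul_le_mul_of_nonneg_left e2 (Real.exp_pos _).le).trans e3
  have hpow : (N : ℝ) * (N : ℝ) ^ (1 - δ ^ 2 / 5120) = (N : ℝ) ^ (2 - δ ^ 2 / 5120) := by
    have e1 : (2 - δ ^ 2 / 5120 : ℝ) = 1 + (1 - δ ^ 2 / 5120) := by ring
    rw [e1, Real.rpow_add hN0, Real.rpow_one]
  have hpow1 : (N : ℝ) ≤ (N : ℝ) ^ (2 - δ ^ 2 / 5120) := by
    have e1 : (N : ℝ) ^ (1:ℝ) ≤ (N : ℝ) ^ (2 - δ ^ 2 / 5120) := by
      apply Real.rpow_le_rpow_of_exponent_le hN1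
      nlinarith
    rwa [Real.rpow_one] at e1
  have e1 : (N : ℝ) * ((2 * A / δ * ((N : ℝ) ^ (1 - δ ^ 2 / 5120) + L)) * H + N * (1 / (2 * ψ))) =
      2 * A / δ * H * ((N : ℝ) ^ (2 - δ ^ 2 / 5120) + N * L) + N * (N * (1 / (2 * ψ))) := by
    rw [← hpow]
    ring
  have e2 : (N : ℝ) * (N * (1 / (2 * ψ))) ≤
      1 / δ * H * ((N : ℝ) ^ (2 - δ ^ 2 / 5120) + N * L) := by
    calc (N : ℝ) * (N * (1 / (2 * ψ))) ≤ N * (N * (H / (δ * N))) :=
          mul_le_mul_of_nonneg_left (mul_le_mul_of_nonneg_left hgood hN0.le) hN0.le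
      _ = 1 / δ * H * N := by field_simp
      _ ≤ 1 / δ * H * ((N : ℝ) ^ (2 - δ ^ 2 / 5120) + N * L) := by
          refine mul_le_mul_of_nonneg_left ?_ (by positivity)
          have : 0 ≤ (N : ℝ) * L := by positivity
          linarith
  rw [e1]
  have e3 : (2 * A + 1) / δ * H * ((N : ℝ) ^ (2 - δ ^ 2 / 5120) + N * L) =
      2 * A / δ * H * ((N : ℝ) ^ (2 - δ ^ 2 / 5120) + N * L) +
        1 / δ * H * ((N : ℝ) ^ (2 - δ ^ 2 / 5120) + N * L) := by
    ring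
  rw [e3]
  exact add_le_add (le_refl _) e2

end Pool.Agent.TH373.EN
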