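import Pool.Agent.TH373.EN.Contra

/-!
# Few well approximable numbers `ξ e ^ n - θ` in a window
-/

set_option autoImplicit false

namespace Pool.Agent.TH373.EN

open Finset Pool.Agent.H771R3.EN

/-- `ξ e ^ n - θ` is very close to a rational number of small denominator -/
def Bad (δ ξ θ : ℝ) (n : ℕ) : Prop := ∃ (a : ℤ) (h : ℕ), 1 ≤ h ∧
  (h : ℝ) ≤ Real.exp (δ ^ 2 / 240 * n) ∧ |ξ * Real.exp n - θ - a / h| < Real.exp (-(δ * n))

theorem bad_pair {δ ξ θ : ℝ} (hδ : 0 < δ) {n j d W : ℕ} (hWn : W ≤ n) (hj : j < W) (hjd : j + d < W)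
    (h1 : Bad δ ξ θ (n + j)) (h2 : Bad δ ξ θ (n + (j + d))) :
    ∃ (b : ℤ) (k : ℕ), 1 ≤ k ∧ (k : ℝ) ≤ Real.exp (δ ^ 2 / 60 * n) ∧
      |ξ * (Real.exp ((n : ℝ) + j + d) - Real.exp ((n : ℝ) + j)) - b / k| ≤
        2 * Real.exp (-(δ * n)) := by
  obtain ⟨a, h, hh1, hh2, hh3⟩ := h1
  obtain ⟨a', h', hh1', hh2', hh3'⟩ := h2
  refine ⟨a' * h - a * h', h * h', Nat.mul_pos hh1 hh1', ?_, ?_⟩
  · push_cast
    refine (mul_le_mul hh2 hh2' (Nat.cast_nonneg _) (Real.exp_pos _).le).trans ?_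
    rw [← Real.exp_add]
    apply Real.exp_le_exp.2
    have e1 : ((n + j : ℕ) : ℝ) ≤ 2 * n := by
      have : n + j ≤ 2 * n := by omega
      exact_mod_cast this
    have e2 : ((n + (j + d) : ℕ) : ℝ) ≤ 2 * n := by
      have : n + (j + d) ≤ 2 * n := by omega
      exact_mod_cast this
    have e3 : 0 ≤ δ ^ 2 / 240 := by positivity
    have e4 := mul_le_mul_of_nonneg_left e1 e3
    have e5 := mul_le_mul_of_nonneg_left e2 e3
    have e6 : δ ^ 2 / 240 * (2 * (n : ℝ)) + δ ^ 2 / 240 * (2 * n) = δ ^ 2 / 60 * n := by ring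
    linarith
  · have e1 : Real.exp (-(δ * ((n + j : ℕ) : ℝ))) ≤ Real.exp (-(δ * n)) := by
      apply Real.exp_le_exp.mpr
      have : (n : ℝ) ≤ ((n + j : ℕ) : ℝ) := by exact_mod_cast Nat.le_add_right n j
      nlinarith
    have e2 : Real.exp (-(δ * ((n + (j + d) : ℕ) : ℝ))) ≤ Real.exp (-(δ * n)) := by
      apply Real.exp_le_exp.mpr
      have : (n : ℝ) ≤ ((n + (j + d) : ℕ) : ℝ) := by exact_mod_cast Nat.le_add_right n (j + d)
      nlinarith
    have e3 : Real.exp (((n + (j + d) : ℕ) : ℝ)) = Real.exp ((n : ℝ) + j + d) := by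
      congr 1
      push_cast
      ring
    have e4 : Real.exp (((n + j : ℕ) : ℝ)) = Real.exp ((n : ℝ) + j) := by
      congr 1
      push_cast
      ring
    rw [e3] at hh3'
    rw [e4] at hh3
    have hh0 : (h : ℝ) ≠ 0 := by positivity
    have hh0' : (h' : ℝ) ≠ 0 := by positivity
    have e5 : ((a' * h - a * h' : ℤ) : ℝ) / ((h * h' : ℕ) : ℝ) = a' / h' - a / h := by
      push_cast
      field_simp
    rw [e5]
    rw [abs_lt] at hh3 hh3'
    rw [abs_le]
    constructor <;> linarith [hh3.1, hh3.2, hh3'.1, hh3'.2]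

open Classical in
/-- few bad elements in a window -/
theorem window (hF : S_FORM) (hVB : S_VB) (hPIG : S_PIG) (n1 : ℕ)
    (hPAR : ∀ (n t W : ℕ) (δ : ℝ), n1 ≤ n → 0 < δ → δ ≤ 1 →
      64 * Real.log (Real.log n) ≤ δ * Real.log n → t = ⌈4 / δ⌉₊ → 1 ≤ W →
      16 * ((t : ℝ) + 1) * Real.log W ≤ δ * Real.log n →
      ∃ m : ℕ, 1 ≤ m ∧
        2 * Real.exp ((n : ℝ) + 2 * W) * (W : ℝ) ^ (t * (t + 1) * m) * ((m - 1).factorial : ℝ) ≤
          ((m * (t + 1) - 1).factorial : ℝ) ∧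
        6 * ((t : ℝ) + 1) * 2 ^ (m * (t + 1)) * ((m * (t + 1) - 1).factorial : ℝ) *
          Real.exp (-(δ * n)) < Real.exp n)
    (n W t : ℕ) (δ ξ θ : ℝ) (hn : n1 ≤ n) (hδ : 0 < δ) (hδ1 : δ ≤ 1) (hξ : ξ ≠ 0)
    (ht : t = ⌈8 / δ⌉₊)
    (hlog : ∀ n' : ℕ, n ≤ n' → n' ≤ 2 * n → 64 * Real.log (Real.log n') ≤ δ / 2 * Real.log n')
    (hW : 1 ≤ W) (hWn : W ≤ n) (hW2 : 16 * ((t : ℝ) + 1) * Real.log W ≤ δ / 2 * Real.log n)
    (hL : 10 * |Real.log (|ξ|)| + 6 ≤ δ * n) :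
    ((range W).filter (fun j : ℕ => Bad δ ξ θ (n + j))).card *
      (((range W).filter (fun j : ℕ => Bad δ ξ θ (n + j))).card - 1) ≤ 2 * t * W := by
  set S : Finset ℕ := (range W).filter (fun j : ℕ => Bad δ ξ θ (n + j)) with hS
  by_contra hlt
  rw [not_le] at hlt
  obtain ⟨d, hd1, hdW, hcard⟩ := hPIG S W t (by rw [hS]; exact filter_subset _ _) hlt
  obtain ⟨T, hTsub, hTcard⟩ := Finset.exists_subset_card_eq hcard
  set μ : ℝ := |ξ| with hμ
  have hμ0 : 0 < μ := abs_pos.2 hξ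
  set L : ℝ := |Real.log μ| with hLd
  have hL0 : 0 ≤ L := abs_nonneg _
  have hn0 : (0 : ℝ) < n := by
    have : 1 ≤ n := hW.trans hWn
    positivity
  -- the parameter
  set x : ℕ := ⌈δ * n / 6 + L⌉₊ with hx
  have hx1 : δ * n / 6 + L ≤ x := Nat.le_ceil _
  have hx2 : (x : ℝ) < δ * n / 6 + L + 1 := Nat.ceil_lt_add_one (by positivity)
  have hxn : x ≤ n := by
    have : (x : ℝ) ≤ n := by
      have h1 : δ * n ≤ n := by nlinarith
      linarith
    exact_mod_cast this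
  set n' : ℕ := n + x with hn'
  have hn'r : (n' : ℝ) = n + x := by rw [hn']; push_cast; ring
  have hnn' : n ≤ n' := Nat.le_add_right _ _
  have hlogn : Real.log n ≤ Real.log n' := Real.log_le_log hn0 (by exact_mod_cast hnn')
  obtain ⟨m, hm1, hmA, hmB⟩ := hPAR n' t W (δ / 2) (hn.trans hnn') (by positivity) (by linarith)
    (hlog n' hnn' (by omega)) (by
      rw [ht]
      congr 1
      field_simp
      norm_num) hW (hW2.trans (mul_le_mul_of_nonneg_left hlogn (by positivity)))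
  have hTS : ∀ j ∈ T, j ∈ S ∧ j + d ∈ S := by
    intro j hj
    have := hTsub hj
    rw [mem_filter] at this
    exact this
  have hpair : ∀ j ∈ T, ∃ (b : ℤ) (k : ℕ), 1 ≤ k ∧ (k : ℝ) ≤ Real.exp (δ ^ 2 / 60 * n) ∧
      |ξ * (Real.exp ((n : ℝ) + j + d) - Real.exp ((n : ℝ) + j)) - b / k| ≤
        2 * Real.exp (-(δ * n)) := by
    intro j hj
    obtain ⟨hj1, hj2⟩ := hTS j hj
    rw [hS, mem_filter, mem_range] at hj1 hj2
    exact bad_pair hδ hWn hj1.1 hj2.1 hj1.2 hj2.2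
  have hpair' : ∀ j ∈ T, ∃ (b : ℤ) (k : ℕ), 1 ≤ k ∧ (k : ℝ) ≤ Real.exp (δ ^ 2 / 60 * n) ∧
      |μ * (Real.exp ((n : ℝ) + j + d) - Real.exp ((n : ℝ) + j)) - b / k| ≤
        2 * Real.exp (-(δ * n)) := by
    rcases abs_choice ξ with hc | hc
    · intro j hj
      rw [hμ, hc]
      exact hpair j hj
    · intro j hj
      obtain ⟨b, k, hk1, hk2, hk3⟩ := hpair j hj
      refine ⟨-b, k, hk1, hk2, ?_⟩
      rw [hμ, hc]
      have e : -ξ * (Real.exp ((n : ℝ) + j + d) - Real.exp ((n : ℝ) + j)) - ((-b : ℤ) : ℝ) / k =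
          -(ξ * (Real.exp ((n : ℝ) + j + d) - Real.exp ((n : ℝ) + j)) - b / k) := by
        push_cast
        ring
      rw [e, abs_neg]
      exact hk3
  choose! b k hk1 hk2 hk3 using hpair'
  have hTW : ∀ j ∈ T, j ≤ W := by
    intro j hj
    have h := (hTS j hj).1
    rw [hS, mem_filter, mem_range] at h
    exact h.1.le
  have hne : T.Nonempty := by
    rw [← Finset.card_pos, hTcard]
    omega
  have hVT : (V T : ℝ) ^ (2 * m) ≤ (W : ℝ) ^ (t * (t + 1) * m) := by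
    have h := hVB T W t hTW hW hTcard
    have h' : ((V T) ^ 2) ^ m ≤ (W ^ (t * (t + 1))) ^ m :=
      Nat.pow_le_pow_left h m
    rw [← pow_mul, ← pow_mul] at h'
    exact_mod_cast h'
  -- the bound for `t`
  have ht1 : (t : ℝ) + 1 ≤ 10 / δ := by
    have h1 : (t : ℝ) < 8 / δ + 1 := by rw [ht]; exact Nat.ceil_lt_add_one (by positivity)
    have h2 : 1 ≤ 1 / δ := by
      rw [le_div_iff₀ hδ]
      linarith
    have h3 : 10 / δ = 8 / δ + 1 / δ + 1 / δ := by ring
    linarith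
  have hprod : ∏ j ∈ T, (k j : ℝ) ≤ Real.exp (δ * n / 6) := by
    calc ∏ j ∈ T, (k j : ℝ) ≤ ∏ j ∈ T, Real.exp (δ ^ 2 / 60 * n) :=
          Finset.prod_le_prod (fun j _ => Nat.cast_nonneg _) hk2
      _ = Real.exp (((t : ℝ) + 1) * (δ ^ 2 / 60 * n)) := by
          rw [Finset.prod_const, hTcard, ← Real.exp_nat_mul]
          push_cast
          rfl
      _ ≤ Real.exp (δ * n / 6) := by
          apply Real.exp_le_exp.2
          have h1 : ((t : ℝ) + 1) * (δ ^ 2 / 60 * n) ≤ 10 / δ * (δ ^ 2 / 60 * n) :=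
            mul_le_mul_of_nonneg_right ht1 (by positivity)
          have h2 : 10 / δ * (δ ^ 2 / 60 * (n : ℝ)) = δ * n / 6 := by
            field_simp
            ring
          linarith
  have hμexp : μ ≤ Real.exp L := by
    rw [← Real.log_le_iff_le_exp hμ0]
    exact le_abs_self _
  have hμexp' : Real.exp (-L) ≤ μ := by
    rw [← Real.le_log_iff_exp_le hμ0]
    exact neg_abs_le _
  refine con hF T n d m W (Real.exp (-(δ * n))) μ (Real.exp (δ * n / 6)) k b hne hm1 hTW hd1 hdW.le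
    hμ0 hk1 hk3 hprod ?_ ?_
  · rw [hTcard]
    refine le_trans ?_ hmA
    apply mul_le_mul_of_nonneg_right _ (by positivity)
    refine mul_le_mul (mul_le_mul_of_nonneg_left ?_ (by norm_num)) hVT (by positivity)
      (by positivity)
    calc Real.exp (δ * n / 6) * μ * Real.exp ((n : ℝ) + 2 * W)
        ≤ Real.exp (δ * n / 6) * Real.exp L * Real.exp ((n : ℝ) + 2 * W) := by gcongr
      _ = Real.exp (δ * n / 6 + L + ((n : ℝ) + 2 * W)) := by rw [← Real.exp_add, ← Real.exp_add]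
      _ ≤ Real.exp ((n' : ℝ) + 2 * W) := by
          apply Real.exp_le_exp.2
          rw [hn'r]
          linarith
  · rw [hTcard]
    have h1 : 6 * ((t : ℝ) + 1) * 2 ^ (m * (t + 1)) * ((m * (t + 1) - 1).factorial : ℝ) <
        Real.exp ((n' : ℝ) * (1 + δ / 2)) := by
      have h2 : Real.exp (-(δ / 2 * (n' : ℝ))) * Real.exp ((n' : ℝ) * (1 + δ / 2)) =
          Real.exp n' := by
        rw [← Real.exp_add]
        congr 1
        ring
      rw [← h2, mul_comm (Real.exp (-(δ / 2 * (n' : ℝ))))] at hmB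
      exact lt_of_mul_lt_mul_right hmB (Real.exp_pos _).le
    have h3 : Real.exp ((n' : ℝ) * (1 + δ / 2)) * Real.exp (-(δ * n)) ≤ μ * Real.exp n := by
      calc Real.exp ((n' : ℝ) * (1 + δ / 2)) * Real.exp (-(δ * n))
          = Real.exp ((n' : ℝ) * (1 + δ / 2) - δ * n) := by
            rw [← Real.exp_add]; congr 1
        _ ≤ Real.exp (-L + n) := by
            apply Real.exp_le_exp.2
            rw [hn'r]
            have h4 : (x : ℝ) * (1 + δ / 2) ≤ (δ * n / 6 + L + 1) * (3 / 2) :=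
              mul_le_mul hx2.le (by linarith) (by positivity) (by positivity)
            have h5 : ((n : ℝ) + x) * (1 + δ / 2) = n + δ * n / 2 + x * (1 + δ / 2) := by ring
            rw [h5]
            linarith
        _ = Real.exp (-L) * Real.exp n := Real.exp_add _ _
        _ ≤ μ * Real.exp n := mul_le_mul_of_nonneg_right hμexp' (Real.exp_pos _).le
    have h6 := mul_lt_mul_of_pos_right h1 (Real.exp_pos (-(δ * (n : ℝ))))
    push_cast at h6 ⊢
    exact h6.trans_le h3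

end Pool.Agent.TH373.EN
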